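import Pool.Agent.Lib.MP_a94b90_nt.EX.Stmt

/-! EX: extension of the lower bound along good levels, and the descent in the parameter `r`. -/

namespace ExOrd
open Set

namespace Down

theorem key (hz : ZStmt) {r j : ℕ} {x y : ℝ} {a b c k t : ℤ} (hg : Good r j x)
    (hx : x ∈ Icc (0 : ℝ) 1) (h1 : 1 ≤ Ht a b c)
    (hup : 3 * (Ht a b c : ℝ) ≤ P (j - (2 * r + 2))) (hlo : P k < 3 * (Ht a b c : ℝ))
    (ht : 36 * ((Ht a b c : ℝ) ^ 2 * y) ≤ P t) (hk : t - 2 * k - 2 ≤ -(2 * r + 2) - 2 * j) :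
    y ≤ |Lv a b c x| := by
  by_contra hc
  have hc' : |Lv a b c x| < y := not_le.1 hc
  have hy : 0 < y := (abs_nonneg _).trans_lt hc'
  have hk0 := P_pos k
  have h2 : P (2 * k + 2) ≤ 36 * (Ht a b c : ℝ) ^ 2 := by
    have e1 : P (2 * k + 2) = 2 ^ 2 * P (2 * k) := P_shift 2 (by push_cast; ring)
    rw [e1, ← P_sq]
    nlinarith
  have h3 : P (2 * k + 2) * y ≤ P (2 * k + 2) * P (t - 2 * k - 2) := by
    rw [P_mul (show 2 * k + 2 + (t - 2 * k - 2) = t by ring)]
    calc P (2 * k + 2) * y ≤ 36 * (Ht a b c : ℝ) ^ 2 * y :=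
          mul_le_mul_of_nonneg_right h2 hy.le
      _ = 36 * ((Ht a b c : ℝ) ^ 2 * y) := by ring
      _ ≤ P t := ht
  have h4 : y ≤ P (t - 2 * k - 2) := le_of_mul_le_mul_left h3 (P_pos _)
  have hH : (0 : ℝ) ≤ Ht a b c := Nat.cast_nonneg _
  have hb : Box r j 0 x a b c := by
    refine ⟨le_P (hc'.le.trans h4) (by push_cast; omega), ?_, ?_⟩
    · exact le_P ((Dv_le_Ht a b c hx).trans hup) (by push_cast; omega)
    · refine le_P (a := j - (2 * r + 2)) ?_ (by push_cast; omega)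
      have := abs_a_le_Ht a b c
      linarith
  have h5 := Ht_eq_zero.2 (hz r j 0 x a b c hg (by omega) hb)
  omega

end Down

theorem ext (hz : ZStmt) : ExtStmt := by
  intro ψ H0 r n i n1 x a b c h0 st hx hg hH
  induction n1 with
  | zero =>
    intro hup
    exact st.low x hx a b c hH (le_P hup (by push_cast; omega))
  | succ m ih =>
    intro hup
    by_cases hn : m + 1 ≤ n
    · exact st.low x hx a b c hH (le_P hup (by push_cast; omega))
    by_cases hm : 3 * (Ht a b c : ℝ) ≤ P (m - (2 * r + 2))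
    · exact ih (fun j h1 h2 => hg j h1 (by omega)) hm
    have hm' : P (m - (2 * r + 2)) < 3 * (Ht a b c : ℝ) := not_le.1 hm
    have ht := st.top (Ht a b c) hH ((P_le (by omega)).trans_lt hm')
    exact Down.key hz (hg (m + 1) (by omega) le_rfl) (st.sub hx) (h0.trans hH) hup hm' ht
      (by push_cast; omega)

theorem down (hz : ZStmt) (hp : PhaseStmt) (ho : LOrStmt) (h1 : ResetPStmt) (h2 : ResetRStmt) :
    DownStmt := by
  intro ψ H0 r n0 i h0 hr st
  obtain ⟨n1, hn1⟩ : ∃ n1, n1 = 10 * n0 + 1000 := ⟨_, rfl⟩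
  have hl : Light (r + 1) n0 n1 (fun x => ¬ StartAt r n1 x) (1 / 2) := by
    refine ho (r + 1) n0 n1 _ _ _ _ _ _ (h1 r n0 n1 hr hn1.ge) (h2 r n0 n1 hr hn1.ge) ?_
      (by norm_num)
    intro x hx
    by_contra hc
    rw [not_or] at hc
    refine hx ⟨fun u l a b c hu hb => ?_, fun u hu => ?_⟩
    · by_contra hd
      exact hc.1 ⟨u, l, a, b, c, hu, hb, hd⟩
    · by_contra hd
      exact hc.2 ⟨u, hu, hd⟩
  obtain ⟨i1, hsub, hall⟩ := hp (r + 1) n0 i n1 _ (by omega) (by omega) st.start hl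
  have hst : ∀ x ∈ Node n1 i1, StartAt r n1 x := fun x hx => not_not.1 (hall x hx).2
  refine ⟨n1, i1, ⟨hr, hsub.trans st.sub, hst, ?_, ?_⟩, hsub⟩
  · intro x hx a b c hH hup
    by_cases hm : 3 * (Ht a b c : ℝ) ≤ P (n1 - (2 * (r + 1 : ℕ) + 2))
    · exact ext hz ψ H0 (r + 1) n0 i n1 x a b c h0 st (hsub hx) (hall x hx).1 hH hm
    have hm' : P (n1 - (2 * (r + 1 : ℕ) + 2)) < 3 * (Ht a b c : ℝ) := not_le.1 hm
    have ht := st.top (Ht a b c) hH ((P_le (by omega)).trans_lt hm')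
    exact Down.key hz (hst x hx).good (st.sub (hsub hx)) (h0.trans hH) hup hm' ht
      (by push_cast; omega)
  · intro H hH hlo
    exact le_P (st.top H hH ((P_le (by push_cast; omega)).trans_lt hlo)) (by push_cast; omega)

end ExOrd
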