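import Pool.Agent.Lib.MP_a94b90_nt.EX.Stmt

/-! EX: a good point has no nonzero form in its boxes of small class. -/

namespace ExOrd
open Set

namespace Z

theorem le_of_sq {u : ℝ} {k c : ℤ} (hu : 0 ≤ u) (h : u ^ 2 ≤ P c) (hc : c ≤ 2 * k) : u ≤ P k := by
  have h1 : u ^ 2 ≤ P k ^ 2 := by rw [P_sq]; exact le_P h hc
  exact (pow_le_pow_iff_left₀ hu (P_pos k).le two_ne_zero).1 h1

theorem den_sq_le {a c : ℤ} (ha : a ≠ 0) (ρ : ℚ) (h : (a : ℚ) * ρ ^ 2 = c) :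
    (ρ.den : ℝ) ^ 2 ≤ |(a : ℝ)| := by
  have hd : (ρ.den : ℚ) ≠ 0 := by exact_mod_cast ρ.den_nz
  have h1 : (a : ℚ) * (ρ.num : ℚ) ^ 2 = c * (ρ.den : ℚ) ^ 2 := by
    have h0 : (ρ.num : ℚ) = ρ * ρ.den := by rw [Rat.mul_den_eq_num]
    rw [h0, ← h]; ring
  have h2 : a * ρ.num ^ 2 = c * (ρ.den : ℤ) ^ 2 := by exact_mod_cast h1
  have hc : IsCoprime ((ρ.den : ℤ) ^ 2) (ρ.num ^ 2) := by
    have : IsCoprime (ρ.den : ℤ) ρ.num := by
      rw [Int.isCoprime_iff_gcd_eq_one, Int.gcd_comm]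
      exact ρ.reduced
    exact this.pow
  have h3 : (ρ.den : ℤ) ^ 2 ∣ a := by
    refine hc.dvd_of_dvd_mul_right ?_
    rw [h2]
    exact Dvd.intro_left c rfl
  have h4 : (ρ.den : ℤ) ^ 2 ≤ |a| := Int.le_of_dvd (abs_pos.2 ha) ((dvd_abs _ _).2 h3)
  exact_mod_cast h4

end Z

theorem z : ZStmt := by
  intro r m l x a b c hg hl hb
  have hd : b ^ 2 = 4 * a * c := hg.1 l a b c hb
  obtain ⟨hL, -, hA⟩ := hb
  by_cases ha : a = 0
  · have hb0 : b = 0 := by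
      rw [ha] at hd
      simpa using hd
    refine ⟨ha, hb0, ?_⟩
    have : Lv a b c x = c := by simp [Lv, ha, hb0]
    rw [this] at hL
    exact int_zero hL (by omega)
  exfalso
  have haQ : (a : ℚ) ≠ 0 := by exact_mod_cast ha
  have haR : (a : ℝ) ≠ 0 := by exact_mod_cast ha
  have hdQ : (b : ℚ) ^ 2 = 4 * a * c := by exact_mod_cast hd
  have hdR : (b : ℝ) ^ 2 = 4 * a * c := by exact_mod_cast hd
  obtain ⟨ρ, hρ⟩ : ∃ ρ : ℚ, ρ = -(b : ℚ) / (2 * a) := ⟨_, rfl⟩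
  have h1 : (a : ℚ) * ρ ^ 2 = c := by
    rw [hρ]
    field_simp
    linarith
  have hρR : (ρ : ℝ) = -(b : ℝ) / (2 * a) := by rw [hρ]; push_cast; ring
  have hLv : Lv a b c x = a * (x - ρ) ^ 2 := by
    have hb' : (b : ℝ) = -(2 * a * ρ) := by rw [hρR]; field_simp
    have hc' : (c : ℝ) = a * (ρ : ℝ) ^ 2 := by exact_mod_cast h1.symm
    unfold Lv
    rw [hb', hc']; ring
  have hden := Z.den_sq_le ha ρ h1
  have hLa : |Lv a b c x| = |(a : ℝ)| * |x - ρ| ^ 2 := by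
    rw [hLv, abs_mul, abs_pow]
  have hd0 : (0 : ℝ) ≤ ρ.den := Nat.cast_nonneg _
  have hx0 : 0 ≤ |x - (ρ : ℝ)| := abs_nonneg _
  have e1 : (ρ.den : ℝ) ≤ P (m - r) := Z.le_of_sq hd0 (hden.trans hA) (by omega)
  have f2 : ((ρ.den : ℝ) * |x - ρ|) ^ 2 ≤ |Lv a b c x| := by
    rw [hLa, mul_pow]
    exact mul_le_mul_of_nonneg_right hden (by positivity)
  have e2 : (ρ.den : ℝ) * |x - ρ| ≤ P (-r - 1 - m) :=
    Z.le_of_sq (by positivity) (f2.trans hL) (by omega)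
  have e3 : (ρ.den : ℝ) ^ 3 * |x - ρ| ≤ P (-3 * r - 2) := by
    have g1 : (ρ.den : ℝ) ^ 2 ≤ P (m - (2 * r + 2) + l) := hden.trans hA
    have g2 : ((ρ.den : ℝ) ^ 2) ^ 2 ≤ P (m - (2 * r + 2) + l) ^ 2 :=
      pow_le_pow_left₀ (by positivity) g1 2
    rw [P_sq] at g2
    have g3 : ((ρ.den : ℝ) ^ 3 * |x - ρ|) ^ 2 ≤
        P (2 * (m - (2 * r + 2) + l)) * P (-(2 * r + 2) - 2 * m - 2 * l) := by
      have : ((ρ.den : ℝ) ^ 3 * |x - ρ|) ^ 2 =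
          ((ρ.den : ℝ) ^ 2) ^ 2 * ((ρ.den : ℝ) * |x - ρ|) ^ 2 := by ring
      rw [this]
      exact mul_le_mul g2 (f2.trans hL) (by positivity) (P_pos _).le
    rw [← P_add] at g3
    exact Z.le_of_sq (by positivity) g3 (by omega)
  exact absurd (hg.2 ρ e1 e3) (not_lt.2 e2)

end ExOrd
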