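import Pool.Agent.Lib.MP_a94b90_nt.EX.Stmt

/-! EX: counting forms in a dilated box. -/

namespace ExOrd
open Set

namespace Cnt

variable {ι : Type}

/-- Points of a square that are separated by cells of side one half. -/
theorem count (T : Finset ι) (f g : ι → ℝ) (G : ℕ) (hf : ∀ Q ∈ T, |f Q| ≤ 2 ^ G)
    (hg : ∀ Q ∈ T, |g Q| ≤ 2 ^ G)
    (inj : ∀ Q ∈ T, ∀ Q' ∈ T, |f Q - f Q'| ≤ 1 / 2 → |g Q - g Q'| ≤ 1 / 2 → Q = Q') :
    (T.card : ℝ) ≤ P (2 * G + 5) := by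
  have h1 : ∀ u : ℝ, |u| ≤ 2 ^ G → ⌊2 * u⌋ ∈ Finset.Icc (-(2 * 2 ^ G : ℤ)) (2 * 2 ^ G) := by
    intro u hu
    obtain ⟨h1, h2⟩ := abs_le.1 hu
    refine Finset.mem_Icc.2 ⟨Int.le_floor.2 ?_, ?_⟩
    · push_cast
      linarith
    · have : ((⌊2 * u⌋ : ℤ) : ℝ) ≤ ((2 * 2 ^ G : ℤ) : ℝ) := by
        push_cast
        linarith [Int.floor_le (2 * u)]
      exact_mod_cast this
  have h2 : ∀ u v : ℝ, ⌊2 * u⌋ = ⌊2 * v⌋ → |u - v| ≤ 1 / 2 := by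
    intro u v h
    have := abs_lt.1 (Int.abs_sub_lt_one_of_floor_eq_floor h)
    rw [abs_le]
    constructor <;> linarith [this.1, this.2]
  have h3 := Finset.card_le_card_of_injOn (s := T)
    (t := Finset.Icc (-(2 * 2 ^ G : ℤ)) (2 * 2 ^ G) ×ˢ Finset.Icc (-(2 * 2 ^ G : ℤ)) (2 * 2 ^ G))
    (fun Q => (⌊2 * f Q⌋, ⌊2 * g Q⌋))
    (fun Q hQ => Finset.mem_coe.2 (Finset.mem_product.2 ⟨h1 _ (hf Q hQ), h1 _ (hg Q hQ)⟩))
    (fun Q hQ Q' hQ' h => inj Q hQ Q' hQ' (h2 _ _ (congrArg Prod.fst h))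
      (h2 _ _ (congrArg Prod.snd h)))
  have h4 : (Finset.Icc (-(2 * 2 ^ G : ℤ)) (2 * 2 ^ G)).card = 4 * 2 ^ G + 1 := by
    have : ((Finset.Icc (-(2 * 2 ^ G : ℤ)) (2 * 2 ^ G)).card : ℤ) = (4 * 2 ^ G + 1 : ℕ) := by
      rw [Int.card_Icc_of_le]
      · push_cast
        ring
      · have : (0 : ℤ) < 2 ^ G := by positivity
        omega
    exact_mod_cast this
  rw [Finset.card_product, h4] at h3
  have h5 : (T.card : ℝ) ≤ (4 * 2 ^ G + 1) * (4 * 2 ^ G + 1) := by exact_mod_cast h3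
  have h6 : P (2 * G + 5) = 2 ^ 5 * (P G * P G) := by
    rw [← P_add]
    exact P_shift 5 (by push_cast; ring)
  have h7 : (1 : ℝ) ≤ 2 ^ G := one_le_pow₀ (by norm_num)
  rw [h6, P_nat]
  nlinarith

/-- Vectors with vanishing determinants have a common normal vector. -/
theorem plane (T : Finset ι) (f g h : ι → ℝ)
    (hd : ∀ p ∈ T, ∀ q ∈ T, ∀ r ∈ T, (g p * h q - h p * g q) * f r + (h p * f q - f p * h q) * g r +
      (f p * g q - g p * f q) * h r = 0) :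
    ∃ a b c : ℝ, ¬ (a = 0 ∧ b = 0 ∧ c = 0) ∧ ∀ r ∈ T, a * f r + b * g r + c * h r = 0 := by
  by_cases h1 : ∃ p ∈ T, ∃ q ∈ T, ¬ (g p * h q - h p * g q = 0 ∧ h p * f q - f p * h q = 0 ∧
      f p * g q - g p * f q = 0)
  · obtain ⟨p, hp, q, hq, h2⟩ := h1
    exact ⟨_, _, _, h2, hd p hp q hq⟩
  · push Not at h1
    by_cases h2 : ∃ p ∈ T, f p ≠ 0
    · obtain ⟨p, hp, h2⟩ := h2
      refine ⟨-g p, f p, 0, fun h3 => h2 h3.2.1, fun r hr => ?_⟩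
      linarith [(h1 p hp r hr).2.2]
    · push Not at h2
      exact ⟨1, 0, 0, by simp, fun r hr => by simp [h2 r hr]⟩

theorem drop {a b c x y z : ℝ} (hc : c ≠ 0) (ha : |a| ≤ |c|) (hb : |b| ≤ |c|)
    (h : a * x + b * y + c * z = 0) (hx : |x| ≤ 1 / 2) (hy : |y| ≤ 1 / 2) : |z| ≤ 1 := by
  have h0 : 0 < |c| := abs_pos.2 hc
  have h1 : |c| * |z| = |a * x + b * y| := by
    rw [← abs_mul, show c * z = -(a * x + b * y) by linarith, abs_neg]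
  have h2 := abs_add_le (a * x) (b * y)
  rw [abs_mul, abs_mul] at h2
  have h3 := mul_le_mul ha hx (abs_nonneg _) h0.le
  have h4 := mul_le_mul hb hy (abs_nonneg _) h0.le
  exact le_of_mul_le_mul_left (by linarith) h0

theorem count3 (T : Finset ι) (f g h : ι → ℝ) (G : ℕ) (hf : ∀ Q ∈ T, |f Q| ≤ 2 ^ G)
    (hg : ∀ Q ∈ T, |g Q| ≤ 2 ^ G)
    (inj : ∀ Q ∈ T, ∀ Q' ∈ T, |f Q - f Q'| ≤ 1 → |g Q - g Q'| ≤ 1 → |h Q - h Q'| ≤ 1 → Q = Q')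
    {a b c : ℝ} (hc : c ≠ 0) (ha : |a| ≤ |c|) (hb : |b| ≤ |c|)
    (hn : ∀ r ∈ T, a * f r + b * g r + c * h r = 0) : (T.card : ℝ) ≤ P (2 * G + 5) :=
  count T f g G hf hg fun Q hQ Q' hQ' h1 h2 =>
    inj Q hQ Q' hQ' (h1.trans (by norm_num)) (h2.trans (by norm_num))
      (drop hc ha hb (by linarith [hn Q hQ, hn Q' hQ']) h1 h2)

theorem count4 (T : Finset ι) (f g h : ι → ℝ) (G : ℕ) (hf : ∀ Q ∈ T, |f Q| ≤ 2 ^ G)
    (hg : ∀ Q ∈ T, |g Q| ≤ 2 ^ G) (hh : ∀ Q ∈ T, |h Q| ≤ 2 ^ G)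
    (inj : ∀ Q ∈ T, ∀ Q' ∈ T, |f Q - f Q'| ≤ 1 → |g Q - g Q'| ≤ 1 → |h Q - h Q'| ≤ 1 → Q = Q')
    (hd : ∀ p ∈ T, ∀ q ∈ T, ∀ r ∈ T, (g p * h q - h p * g q) * f r + (h p * f q - f p * h q) * g r +
      (f p * g q - g p * f q) * h r = 0) : (T.card : ℝ) ≤ P (2 * G + 5) := by
  obtain ⟨a, b, c, h0, hn⟩ := plane T f g h hd
  have key : ∀ {a b c : ℝ}, |a| ≤ |c| → |b| ≤ |c| → c = 0 → a = 0 ∧ b = 0 ∧ c = 0 := by
    intro a b c h1 h2 h3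
    rw [h3, abs_zero] at h1 h2
    exact ⟨abs_nonpos_iff.1 h1, abs_nonpos_iff.1 h2, h3⟩
  by_cases h1 : |a| ≤ |c| ∧ |b| ≤ |c|
  · exact count3 T f g h G hf hg inj (fun e => h0 (key h1.1 h1.2 e)) h1.1 h1.2 hn
  by_cases h2 : |a| ≤ |b|
  · have h3 : |c| ≤ |b| := by
      by_contra h4
      exact h1 ⟨h2.trans (not_le.1 h4).le, (not_le.1 h4).le⟩
    refine count3 T f h g G hf hh (fun Q hQ Q' hQ' e1 e2 e3 => inj Q hQ Q' hQ' e1 e3 e2)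
      (fun e => ?_) h2 h3 fun r hr => by linarith [hn r hr]
    obtain ⟨e1, e2, e3⟩ := key h2 h3 e
    exact h0 ⟨e1, e3, e2⟩
  · have h2' : |b| ≤ |a| := (not_le.1 h2).le
    have h3 : |c| ≤ |a| := by
      by_contra h4
      exact h1 ⟨(not_le.1 h4).le, h2'.trans (not_le.1 h4).le⟩
    refine count3 T g h f G hg hh (fun Q hQ Q' hQ' e1 e2 e3 => inj Q hQ Q' hQ' e3 e1 e2)
      (fun e => ?_) h2' h3 fun r hr => by linarith [hn r hr]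
    obtain ⟨e1, e2, e3⟩ := key h2' h3 e
    exact h0 ⟨e3, e1, e2⟩

theorem div_le {u : ℝ} {α : ℤ} {G : ℕ} (h : |u| ≤ P (α + G)) : |u / P α| ≤ 2 ^ G := by
  rw [abs_div, abs_of_pos (P_pos α), div_le_iff₀ (P_pos α), ← P_shift G rfl]
  exact h

theorem sub_le {u v : ℝ} {α : ℤ} (h : |u / P α - v / P α| ≤ 1) : |u - v| ≤ P α := by
  rwa [← sub_div, abs_div, abs_of_pos (P_pos α), div_le_one (P_pos α)] at h

end Cnt

theorem cnt : CntStmt := by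
  intro α β γ G x h0 hs T hT
  refine Cnt.count4 T (fun Q => Lv Q.1 Q.2.1 Q.2.2 x / P α) (fun Q => Dv Q.1 Q.2.1 x / P β)
    (fun Q => (Q.1 : ℝ) / P γ) G (fun Q hQ => Cnt.div_le (hT Q hQ).1)
    (fun Q hQ => Cnt.div_le (hT Q hQ).2.1) (fun Q hQ => Cnt.div_le (hT Q hQ).2.2) ?_ ?_
  · rintro ⟨a, b, c⟩ _ ⟨a', b', c'⟩ _ h1 h2 h3
    have e1 : Lv (a - a') (b - b') (c - c') x = Lv a b c x - Lv a' b' c' x := by
      unfold Lv; push_cast; ring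
    have e2 : Dv (a - a') (b - b') x = Dv a b x - Dv a' b' x := by
      unfold Dv; push_cast; ring
    obtain ⟨z1, z2, z3⟩ := h0 (a - a') (b - b') (c - c')
      ⟨e1 ▸ Cnt.sub_le h1, e2 ▸ Cnt.sub_le h2, by rw [Int.cast_sub]; exact Cnt.sub_le h3⟩
    rw [sub_eq_zero.1 z1, sub_eq_zero.1 z2, sub_eq_zero.1 z3]
  · rintro ⟨a, b, c⟩ hp ⟨a', b', c'⟩ hq ⟨a'', b'', c''⟩ hr
    obtain ⟨p1, p2, p3⟩ := hT _ hp
    obtain ⟨q1, q2, q3⟩ := hT _ hq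
    obtain ⟨r1, r2, r3⟩ := hT _ hr
    dsimp only at p1 p2 p3 q1 q2 q3 r1 r2 r3 ⊢
    have e : (((b * a' - a * b') * c'' + (a * c' - c * a') * b'' + (c * b' - b * c') * a'' : ℤ) : ℝ) =
        (Dv a b x * a' - a * Dv a' b' x) * Lv a'' b'' c'' x +
          (a * Lv a' b' c' x - Lv a b c x * a') * Dv a'' b'' x +
          (Lv a b c x * Dv a' b' x - Dv a b x * Lv a' b' c' x) * a'' := by
      unfold Lv Dv; push_cast; ring
    have t1 : |(Dv a b x * a' - a * Dv a' b' x) * Lv a'' b'' c'' x| ≤ P (-2) :=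
      mul_le_P (sub_le_P (c := β + γ + 2 * G + 1) (mul_le_P p2 q3 le_rfl) (mul_le_P p3 q2 le_rfl)
        (by omega) (by omega)) r1 (by omega)
    have t2 : |(a * Lv a' b' c' x - Lv a b c x * a') * Dv a'' b'' x| ≤ P (-2) :=
      mul_le_P (sub_le_P (c := α + γ + 2 * G + 1) (mul_le_P p3 q1 le_rfl) (mul_le_P p1 q3 le_rfl)
        (by omega) (by omega)) r2 (by omega)
    have t3 : |(Lv a b c x * Dv a' b' x - Dv a b x * Lv a' b' c' x) * a''| ≤ P (-2) :=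
      mul_le_P (sub_le_P (c := α + β + 2 * G + 1) (mul_le_P p1 q2 le_rfl) (mul_le_P p2 q1 le_rfl)
        (by omega) (by omega)) r3 (by omega)
    rw [P_neg_two] at t1 t2 t3
    have z : (b * a' - a * b') * c'' + (a * c' - c * a') * b'' + (c * b' - b * c') * a'' = 0 := by
      have h1 := (abs_add_three _ _ _).trans (add_le_add (add_le_add t1 t2) t3)
      rw [← e] at h1
      have h2 := h1.trans_lt (by norm_num : (1 / 4 + 1 / 4 + 1 / 4 : ℝ) < 1)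
      exact Int.abs_lt_one_iff.1 (by exact_mod_cast h2)
    rw [z, Int.cast_zero] at e
    have hα := (P_pos α).ne'
    have hβ := (P_pos β).ne'
    have hγ := (P_pos γ).ne'
    field_simp
    linarith

end ExOrd
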