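import Pool.Agent.Lib.MP_a94b90_nt.EX.Stmt

/-! EX row 13: a primitive Dirichlet vector. -/

namespace ExOrd

namespace Dir

/-- pigeonhole: a nonzero small form. -/
theorem pigeon (A B : ℕ) (x : ℝ) : ∃ a b c : ℤ, (a ≠ 0 ∨ b ≠ 0) ∧ |(a : ℝ)| ≤ P A ∧
    |(b : ℝ)| ≤ P B ∧ |Lv a b c x| ≤ P (-A - B) := by
  set N : ℕ := 2 ^ (A + B) with hN
  have hN0 : (0 : ℝ) < N := by positivity
  let f : ℕ × ℕ → ℝ := fun p => (p.1 : ℝ) * x ^ 2 + p.2 * x
  let g : ℕ × ℕ → ℕ := fun p => ⌊(N : ℝ) * Int.fract (f p)⌋₊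
  have hcard : (Finset.range N).card <
      (Finset.range (2 ^ A + 1) ×ˢ Finset.range (2 ^ B + 1)).card := by
    rw [Finset.card_product, Finset.card_range, Finset.card_range, Finset.card_range, hN, pow_add]
    nlinarith [Nat.zero_le (2 ^ A), Nat.zero_le (2 ^ B)]
  have hmap : ∀ p ∈ Finset.range (2 ^ A + 1) ×ˢ Finset.range (2 ^ B + 1),
      g p ∈ Finset.range N := by
    intro p _
    refine Finset.mem_range.2 ((Nat.floor_lt (mul_nonneg hN0.le (Int.fract_nonneg _))).2 ?_)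
    nlinarith [Int.fract_lt_one (f p)]
  obtain ⟨p, hp, q, hq, hne, he⟩ := Finset.exists_ne_map_eq_of_card_lt_of_maps_to hcard hmap
  obtain ⟨hp1, hp2⟩ := Finset.mem_product.1 hp
  obtain ⟨hq1, hq2⟩ := Finset.mem_product.1 hq
  have key : ∀ (u v k : ℕ), u ∈ Finset.range (2 ^ k + 1) → v ∈ Finset.range (2 ^ k + 1) →
      |(((u : ℤ) - v : ℤ) : ℝ)| ≤ P k := by
    intro u v k hu hv
    have h1 : (u : ℝ) ≤ 2 ^ k := by exact_mod_cast Nat.lt_succ_iff.1 (Finset.mem_range.1 hu)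
    have h2 : (v : ℝ) ≤ 2 ^ k := by exact_mod_cast Nat.lt_succ_iff.1 (Finset.mem_range.1 hv)
    rw [P_nat, abs_le]
    push_cast
    constructor <;> linarith [Nat.cast_nonneg (α := ℝ) u, Nat.cast_nonneg (α := ℝ) v]
  refine ⟨(p.1 : ℤ) - q.1, (p.2 : ℤ) - q.2, ⌊f q⌋ - ⌊f p⌋, ?_, key _ _ _ hp1 hq1,
    key _ _ _ hp2 hq2, ?_⟩
  · by_contra hc
    push Not at hc
    exact hne (Prod.ext (by omega) (by omega))
  · have hL : Lv ((p.1 : ℤ) - q.1) ((p.2 : ℤ) - q.2) (⌊f q⌋ - ⌊f p⌋) x =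
        Int.fract (f p) - Int.fract (f q) := by
      unfold Lv Int.fract
      simp only [f]
      push_cast
      ring
    have hP : P (-A - B) * N = 1 := by
      have : (N : ℝ) = P (A + B : ℕ) := by rw [P_nat, hN]; push_cast; rfl
      rw [this, P_mul (c := 0) (by push_cast; ring), P_zero]
    have h1 := Nat.floor_le (mul_nonneg hN0.le (Int.fract_nonneg (f p)))
    have h2 := Nat.floor_le (mul_nonneg hN0.le (Int.fract_nonneg (f q)))
    have h3 := Nat.lt_floor_add_one ((N : ℝ) * Int.fract (f p))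
    have h4 := Nat.lt_floor_add_one ((N : ℝ) * Int.fract (f q))
    have h5 : (⌊(N : ℝ) * Int.fract (f p)⌋₊ : ℝ) = ⌊(N : ℝ) * Int.fract (f q)⌋₊ := by
      exact_mod_cast he
    rw [hL]
    refine le_of_mul_le_mul_right ?_ hN0
    rw [hP, ← abs_of_pos hN0, ← abs_mul, abs_le]
    constructor <;> nlinarith

theorem abs_le_of_mul {d a : ℤ} (hd : d ≠ 0) : |(a : ℝ)| ≤ |((d * a : ℤ) : ℝ)| := by
  have h1 : (1 : ℝ) ≤ |(d : ℝ)| := by exact_mod_cast Int.one_le_abs hd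
  push_cast
  rw [abs_mul]
  nlinarith [abs_nonneg (a : ℝ)]

end Dir

theorem dir : DirStmt := by
  intro A B x
  obtain ⟨a, b, c, h0, ha, hb, hL⟩ := Dir.pigeon A B x
  set d : ℤ := gcd a (gcd b c) with hd
  have hd0 : d ≠ 0 := by
    intro h
    rw [hd, gcd_eq_zero_iff, gcd_eq_zero_iff] at h
    rcases h0 with h0 | h0
    · exact h0 h.1
    · exact h0 h.2.1
  obtain ⟨a', ha'⟩ : d ∣ a := gcd_dvd_left _ _
  obtain ⟨b', hb'⟩ : d ∣ b := (gcd_dvd_right _ _).trans (gcd_dvd_left _ _)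
  obtain ⟨c', hc'⟩ : d ∣ c := (gcd_dvd_right _ _).trans (gcd_dvd_right _ _)
  refine ⟨a', b', c', ?_, ?_, ?_, ?_⟩
  · intro t h1 h2 h3
    have h4 : d * t ∣ gcd a (gcd b c) :=
      dvd_gcd (ha' ▸ mul_dvd_mul_left d h1)
        (dvd_gcd (hb' ▸ mul_dvd_mul_left d h2) (hc' ▸ mul_dvd_mul_left d h3))
    rw [← hd] at h4
    exact isUnit_of_dvd_one ((mul_dvd_mul_iff_left hd0).1 (by rwa [mul_one]))
  · exact (Dir.abs_le_of_mul hd0).trans (ha' ▸ ha)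
  · exact (Dir.abs_le_of_mul hd0).trans (hb' ▸ hb)
  · rw [ha', hb', hc', Lv_mul, abs_mul] at hL
    have h1 : (1 : ℝ) ≤ |(d : ℝ)| := by exact_mod_cast Int.one_le_abs hd0
    nlinarith [abs_nonneg (Lv a' b' c' x)]

end ExOrd
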