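import Pool.Agent.Lib.MP_a94b90_nt.EX.Stmt

/-! EX row 14: the Dirichlet vector and the window node. -/

namespace ExOrd
open Set

namespace VecAux

/-- a value between the two end values is attained near `x0`. -/
theorem cross (a b c : ℤ) (x0 h M τ : ℝ) (hh : 0 < h) (hτ : 0 ≤ τ)
    (hD : 2 * M ≤ |Dv a b x0|) (ha : |(a : ℝ)| * h ≤ M) (hL : |Lv a b c x0| + τ ≤ M * h) :
    ∃ y, |y - x0| ≤ h ∧ Lv a b c y = τ := by
  have hc : ContinuousOn (Lv a b c) (uIcc (x0 - h) (x0 + h)) := by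
    apply Continuous.continuousOn
    unfold Lv
    fun_prop
  have e1 := Lv_sub a b c x0 (x0 + h)
  have e2 := Lv_sub a b c x0 (x0 - h)
  rw [add_sub_cancel_left] at e1
  rw [sub_sub_cancel_left] at e2
  have hL1 := abs_le.1 (show |Lv a b c x0| ≤ M * h - τ by linarith)
  have ha1 : |(a : ℝ) * h| ≤ M := by rwa [abs_mul, abs_of_pos hh]
  have ha2 := abs_le.1 ha1
  have hmem : τ ∈ uIcc (Lv a b c (x0 - h)) (Lv a b c (x0 + h)) := by
    rcases le_abs'.1 hD with h1 | h1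
    · have h2 : (Dv a b x0 + a * h) * h ≤ -M * h :=
        mul_le_mul_of_nonneg_right (by linarith) hh.le
      have h3 : M * h ≤ (-(Dv a b x0 + a * -h)) * h :=
        mul_le_mul_of_nonneg_right (by linarith) hh.le
      exact mem_uIcc.2 (Or.inr ⟨by linarith, by linarith⟩)
    · have h2 : M * h ≤ (Dv a b x0 + a * h) * h :=
        mul_le_mul_of_nonneg_right (by linarith) hh.le
      have h3 : M * h ≤ (Dv a b x0 + a * -h) * h :=
        mul_le_mul_of_nonneg_right (by linarith) hh.le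
      exact mem_uIcc.2 (Or.inl ⟨by linarith, by linarith⟩)
  obtain ⟨y, hy, hy2⟩ := intermediate_value_uIcc hc hmem
  refine ⟨y, ?_, hy2⟩
  rw [uIcc_of_le (by linarith)] at hy
  exact abs_le.2 ⟨by linarith [hy.1], by linarith [hy.2]⟩

theorem abs_le_one {x : ℝ} (hx : x ∈ Icc (0 : ℝ) 1) : |x| ≤ P 0 := by
  rw [P_zero, abs_of_nonneg hx.1]; exact hx.2

end VecAux

open VecAux

theorem vec (hz : ZStmt) (hd : DirStmt) : VecStmt := by
  intro ψ r g s n0 n1 n i par hgood hsub hpos hsm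
  obtain ⟨hr, hg, hs, hn, hb⟩ := par
  have hp1 := P_pos (-3 * n1 - 2)
  have hP : P (-3 * n1) = 2 ^ 2 * P (-3 * n1 - 2) := P_shift 2 (by push_cast; ring)
  obtain ⟨x0, hx0⟩ : ∃ x0 : ℝ, x0 = (i : ℝ) * P (-3 * n1) + 2 * P (-3 * n1 - 2) := ⟨_, rfl⟩
  have hin : ∀ x, |x - x0| ≤ 2 * P (-3 * n1 - 2) → x ∈ Node n1 i := by
    intro x hx
    have := abs_le.1 hx
    exact ⟨by linarith [this.1], by linarith [this.2]⟩
  have hx0m : x0 ∈ Node n1 i := hin x0 (by rw [sub_self, abs_zero]; linarith)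
  obtain ⟨A, hA⟩ : ∃ A : ℕ, A + 2 * r + 2 = n1 := ⟨n1 - (2 * r + 2), by omega⟩
  obtain ⟨a, b, c, prim, ha, hb', hL⟩ := hd A n x0
  have hD0 : P (n - 6 * r - 11) < |Dv a b x0| := by
    by_contra hc
    obtain ⟨h1, h2, h3⟩ := hz r n1 0 x0 a b c (hgood x0 hx0m) (by omega)
      ⟨le_P hL (by omega), le_P (not_lt.1 hc) (by omega), le_P ha (by omega)⟩
    have := prim 0 (by rw [h1]) (by rw [h2]) (by rw [h3])
    exact not_isUnit_zero this
  have hsucc : P (n - 6 * r - 11) = 2 * P (n - 6 * r - 12) := by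
    rw [← P_succ]; congr 1; ring
  have hvec : ∀ x ∈ Node n1 i, Vec r n x a b c := by
    intro x hx
    refine ⟨prim, le_P ha (by omega), hb', ?_, ?_⟩
    · have h1 : |2 * ((a : ℝ) * (x - x0))| ≤ P (n - 6 * r - 12) :=
        two_mul_le_P (mul_le_P ha (node_dist hx hx0m) le_rfl) (by omega)
      have h2 : Dv a b x0 = Dv a b x - 2 * (a * (x - x0)) := by rw [Dv_taylor a b x0 x]; ring
      have h3 := abs_sub (Dv a b x) (2 * ((a : ℝ) * (x - x0)))
      rw [← h2] at h3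
      linarith
    · have h1 : |2 * ((a : ℝ) * x)| ≤ P (A + 1) :=
        two_mul_le_P (mul_le_P ha (abs_le_one (hsub hx)) (c := A) (by omega)) (by omega)
      have h2 : Dv a b x = 2 * (a * x) + b := by unfold Dv; ring
      rw [h2]
      exact add_le_P h1 hb' (by omega) (by omega)
  have hH1 : P (n - 6 * r - 11) < 3 * (Ht a b c : ℝ) :=
    hD0.trans_le (Dv_le_Ht a b c (hsub hx0m))
  have hH2 : (Ht a b c : ℝ) ≤ P (n + 2) := by
    refine Ht_le (le_P ha (by omega)) (le_P hb' (by omega)) ?_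
    have h0 := abs_le_one (hsub hx0m)
    have h1 : |(a : ℝ) * x0 * x0| ≤ P A :=
      mul_le_P (mul_le_P ha h0 (c := A) (by omega)) h0 (by omega)
    have h2 : |(b : ℝ) * x0| ≤ P n := mul_le_P hb' h0 (by omega)
    have h3 : (c : ℝ) = Lv a b c x0 - (a * x0 * x0 + b * x0) := by unfold Lv; ring
    rw [h3]
    exact sub_le_P hL (add_le_P h1 h2 (c := n + 1) (by omega) (by omega)) (by omega) (by omega)
  have hH0 : 1 ≤ Ht a b c := by
    rcases Nat.eq_zero_or_pos (Ht a b c) with h | h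
    · rw [h] at hH1
      have := P_pos (n - 6 * r - 11)
      norm_num at hH1
      linarith
    · exact h
  have hψ := hpos _ hH0
  have hψ2 : ψ (Ht a b c) ≤ P (-2 * n - 19 * s - 1) := by
    have h1 := hsm _ hH1
    have h2 : P (n - 6 * r - 11) = 2 ^ 2 * P (n - 6 * r - 13) := P_shift 2 (by push_cast; ring)
    have h3 := P_pos (n - 6 * r - 13)
    have h4 : P (n - 6 * r - 13) ≤ (Ht a b c : ℝ) := by linarith
    have h5 : P (2 * (n - 6 * r - 13)) ≤ |(Ht a b c : ℝ) ^ 2| := by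
      rw [← P_sq, abs_of_nonneg (sq_nonneg _)]
      exact pow_le_pow_left₀ h3.le h4 2
    have h6 : |(Ht a b c : ℝ) ^ 2 * ψ (Ht a b c)| ≤ P (-20 * s) := by
      rwa [abs_of_nonneg (mul_nonneg (sq_nonneg _) hψ.le)]
    have h7 := div_le_P h5 h6 (c := -2 * n - 19 * s - 1) (by omega)
    rwa [abs_of_pos hψ] at h7
  obtain ⟨k, hk1, hk2⟩ := exists_shell hψ
  have hk3 := le_of_P_le (hk1.trans hψ2)
  obtain ⟨n2, hn2, hn3⟩ : ∃ n2 : ℕ, (n : ℤ) + g + 3 - k ≤ 3 * n2 ∧ 3 * (n2 : ℤ) ≤ n + g + 5 - k :=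
    ⟨(((n : ℤ) + g + 5 - k) / 3).toNat, by omega, by omega⟩
  have hm1 : P (n + g + 3 - 3 * n2) ≤ ψ (Ht a b c) := (P_le (by omega)).trans hk1
  have hm2 : ψ (Ht a b c) < P (n + g + 6 - 3 * n2) := hk2.trans_le (P_le (by omega))
  have hg1 : P (-(g : ℤ) - 1) ≤ 1 := P_le_one (by omega)
  have hg0 := P_pos (-(g : ℤ) - 1)
  have hgs : P (-(g : ℤ)) = 2 * P (-(g : ℤ) - 1) := by
    rw [← P_succ]; congr 1; ring
  obtain ⟨y, hy, hyL⟩ := cross a b c x0 (P (-3 * n1 - 2)) (P (n - 6 * r - 12))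
    ((1 + P (-(g : ℤ) - 1)) * ψ (Ht a b c)) hp1 (by positivity) (by linarith)
    (by
      have := mul_le_P ha (v := P (-3 * n1 - 2)) (b := -3 * n1 - 2) (abs_of_pos hp1).le
        (c := n - 6 * r - 12) (by omega)
      rwa [abs_mul, abs_of_pos hp1] at this)
    (by
      rw [P_mul (c := -2 * n1 - 2 * r - 5) (by omega)]
      have h1 : (1 + P (-(g : ℤ) - 1)) * ψ (Ht a b c) ≤ 2 * P (-2 * n - 19 * s - 1) :=
        mul_le_mul (by linarith) hψ2 hψ.le (by norm_num)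
      rw [← P_succ] at h1
      exact (add_le_add hL h1).trans (P_add_le (by omega) (by omega)))
  have hym : y ∈ Node n1 i := hin y (by linarith)
  obtain ⟨i2, hi2⟩ := exists_node n2 (hsub hym).1
  have hsub2 : Node n2 i2 ⊆ Node n1 i := by
    intro x hx
    have h1 : |x - y| ≤ P (-3 * n1 - 2) := le_P (node_dist hx hi2) (by omega)
    have h2 := abs_sub_le x y x0
    exact hin x (by linarith)
  refine ⟨a, b, c, n2, i2, hsub2, hH1, hH2, hψ2, hm1, hm2, fun x hx => ⟨hvec x (hsub2 hx), ?_⟩⟩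
  have h1 := node_dist hx hi2
  have h2 : |Dv a b y + a * (x - y)| ≤ P (n + 2) :=
    add_le_P (hvec y hym).hi (mul_le_P ha h1 le_rfl) (by omega) (by omega)
  have h3 : |Lv a b c x - Lv a b c y| ≤ P (n + 2 - 3 * n2) := by
    rw [Lv_sub]; exact mul_le_P h2 h1 (by omega)
  have h4 : P (n + 2 - 3 * n2) ≤ P (-(g : ℤ) - 1) * ψ (Ht a b c) := by
    rw [← P_mul (a := -(g : ℤ) - 1) (b := n + g + 3 - 3 * n2) (by ring)]
    exact mul_le_mul_of_nonneg_left hm1 hg0.le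
  rw [hyL] at h3
  have h5 := abs_le.1 (h3.trans h4)
  have h6 : ψ (Ht a b c) ≤ Lv a b c x := by linarith [h5.1]
  rw [abs_of_pos (hψ.trans_le h6), hgs]
  exact ⟨h6, by linarith [h5.2]⟩

end ExOrd
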