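import Pool.Agent.Lib.MP_a94b90_nt.EX.Stmt

/-! EX: few nodes meet a form with a large derivative inside a good node. -/

namespace ExOrd
open Set

namespace Kill

/-- the points where one form is small with a large derivative are close together. -/
theorem close {m A : ℕ} {α γ B κ : ℤ} {a b c : ℤ} (ha : |(a : ℝ)| ≤ P γ)
    (h1 : 2 + γ - 3 * m ≤ B) (h2 : 2 + α - B ≤ κ) {x y : ℝ} (hx : x ∈ Node m A)
    (hy : y ∈ Node m A) (lx : |Lv a b c x| ≤ P α) (ly : |Lv a b c y| ≤ P α)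
    (dx : P B < |Dv a b x|) : |y - x| ≤ P κ := by
  have e1 : |(a : ℝ) * (y - x)| ≤ P (B - 2) := mul_le_P ha (node_dist hy hx) (by omega)
  have e2 : |Lv a b c y - Lv a b c x| ≤ P (α + 1) := sub_le_P ly lx (by omega) (by omega)
  rw [Lv_sub] at e2
  refine div_le_P (b := B - 1) ?_ e2 (by omega)
  have e3 : P (B - 1) + P (B - 2) ≤ P B := P_add_le (by omega) (by omega)
  have e4 := abs_sub (Dv a b x + a * (y - x)) (a * (y - x))
  rw [add_sub_cancel_right] at e4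
  linarith

/-- moving a form to another point of the node. -/
theorem move {r m l F A : ℕ} {α β γ : ℤ} (hl : l ≤ m)
    (h1 : α ≤ F - (2 * r + 2) - 2 * m - 2 * l) (h2 : β ≤ F + m - (2 * r + 2) - 2 * l)
    (h3 : γ ≤ F + m - (2 * r + 2) + l) {x y : ℝ} (hx : x ∈ Node m A) (hy : y ∈ Node m A)
    {a b c : ℤ} (h : Bx α β γ x a b c) :
    Bx (-(2 * r + 2) - 2 * m - 2 * l + (F + 2 : ℕ)) (m - (2 * r + 2) - 2 * l + (F + 2 : ℕ))
      (m - (2 * r + 2) + l + (F + 2 : ℕ)) y a b c := by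
  have d := node_dist hy hx
  have e1 : |(a : ℝ) * (y - x)| ≤ P (γ - 3 * m) := mul_le_P h.2.2 d (by omega)
  refine ⟨?_, ?_, le_P h.2.2 (by omega)⟩
  · rw [Lv_taylor a b c x y]
    exact add_le_P (a := F - (2 * r + 2) - 2 * m - 2 * l + 1) (b := γ - 6 * m)
      (add_le_P (b := β - 3 * m) h.1 (mul_le_P h.2.1 d (by omega)) (by omega) (by omega))
      (mul_le_P e1 d (by omega)) (by omega) (by omega)
  · rw [Dv_taylor a b x y]
    exact add_le_P (b := γ - 3 * m + 1) h.2.1 (two_mul_le_P e1 (by omega)) (by omega) (by omega)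

end Kill

theorem kill (hz : ZStmt) (hc : CntStmt) : KillStmt := by
  classical
  intro r m j l F ρ α β γ B hl hF h1 h2 h3 h4 h5 A hA T hT
  have hT' : ∀ i : ℕ, ∃ Q : ℤ × ℤ × ℤ, i ∈ T → ∃ x, x ∈ Node m A ∧ x ∈ Node j i ∧
      Bx α β γ x Q.1 Q.2.1 Q.2.2 ∧ P B < |Dv Q.1 Q.2.1 x| := fun i => by
    by_cases hi : i ∈ T
    · obtain ⟨x, hx, hx', a, b, c, hb, hd⟩ := hT i hi
      exact ⟨(a, b, c), fun _ => ⟨x, hx, hx', hb, hd⟩⟩
    · exact ⟨0, fun h => absurd h hi⟩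
  choose f hf using hT'
  have x0 := node_left m A
  have c1 := hc _ _ _ (F + 2) _ (fun a b c h => hz r m l _ a b c (hA _ x0) (by omega) h)
    (by omega) (T.image f) fun Q hQ => by
      obtain ⟨i, hi, rfl⟩ := Finset.mem_image.1 hQ
      obtain ⟨x, hx, -, hb, -⟩ := hf i hi
      exact Kill.move hl h1 h2 h3 hx x0 hb
  have c2 : ∀ Q ∈ T.image f, ((T.filter fun i => f i = Q).card : ℝ) ≤ P (ρ + 2) := fun Q hQ => by
    obtain ⟨i0, hi0, rfl⟩ := Finset.mem_image.1 hQ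
    obtain ⟨-, -, -, ⟨-, -, ha⟩, -⟩ := hf i0 hi0
    refine diam_P (j := j) (E := fun x => x ∈ Node m A ∧
      |Lv (f i0).1 (f i0).2.1 (f i0).2.2 x| ≤ P α ∧ P B < |Dv (f i0).1 (f i0).2.1 x|)
      (fun x y ex ey => Kill.close ha h4 (by omega) ey.1 ex.1 ey.2.1 ex.2.1 ey.2.2) _
      fun i hi => ?_
    obtain ⟨hi, e⟩ := Finset.mem_filter.1 hi
    obtain ⟨x, hx, hx', hb, hd⟩ := hf i hi
    rw [e] at hb hd
    exact ⟨x, hx', hx, hb.1, hd⟩
  rw [Finset.card_eq_sum_card_image f T, Nat.cast_sum]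
  refine (Finset.sum_le_card_nsmul _ _ _ c2).trans ?_
  rw [nsmul_eq_mul, ← P_mul (a := 2 * (F + 2 : ℕ) + 5) (b := ρ + 2) (c := ρ + 2 * F + 11)
    (by omega)]
  exact mul_le_mul_of_nonneg_right c1 (P_pos _).le

end ExOrd
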