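import Pool.Agent.Lib.MP_a94b90_nt.EX.Stmt

/-! EX: calculus of light events. -/

namespace ExOrd
open Set

namespace LightA

theorem grow {n j : ℕ} {S : ℕ → Finset ℕ}
    (h : ∀ m, n ≤ m → m + 1 < j → 7 * (S m).card ≤ (S (m + 1)).card) {m : ℕ} (hm : n ≤ m) :
    ∀ d : ℕ, m + d < j → 7 ^ d * (S m).card ≤ (S (m + d)).card
  | 0, _ => by simp
  | d + 1, hd => by
    have h1 := grow h hm d (by omega)
    have h2 := h (m + d) (by omega) (by omega)
    calc 7 ^ (d + 1) * (S m).card = 7 * (7 ^ d * (S m).card) := by ring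
      _ ≤ 7 * (S (m + d)).card := Nat.mul_le_mul_left _ h1
      _ ≤ _ := h2

theorem seven {k : ℤ} {d : ℕ} (h : 5 * k ≤ 14 * (d : ℤ)) : P k ≤ 7 ^ d := by
  refine le_of_pow_le_pow_left₀ (n := 5) (by norm_num) (by positivity) ?_
  have h1 : P k ^ 5 = P (5 * k) := by
    unfold P
    rw [← zpow_natCast, ← zpow_mul, mul_comm]
    norm_num
  have h2 : P (5 * k) ≤ P ((14 * d : ℕ) : ℤ) := P_le (by push_cast; exact h)
  rw [h1, ← pow_mul, mul_comm d 5, pow_mul]
  refine h2.trans ?_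
  rw [P_nat, pow_mul]
  exact pow_le_pow_left₀ (by norm_num) (by norm_num) d

theorem geo (c : ℤ) (N : ℕ) : ∑ l ∈ Finset.range N, P (-(c + (l / 16 : ℕ))) +
    (32 - (N % 16 : ℕ)) * P (-(c + (N / 16 : ℕ))) ≤ P (5 - c) := by
  induction N with
  | zero =>
    rw [P_shift 5 (show 5 - c = -c + (5 : ℕ) by push_cast; ring)]
    norm_num
  | succ N ih =>
    rw [Finset.sum_range_succ]
    refine le_trans (le_of_eq ?_) ih
    rcases (show ((N + 1) / 16 = N / 16 ∧ (N + 1) % 16 = N % 16 + 1) ∨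
        ((N + 1) / 16 = N / 16 + 1 ∧ (N + 1) % 16 = 0 ∧ N % 16 = 15) by omega) with
      ⟨h1, h2⟩ | ⟨h1, h2, h3⟩
    · rw [h1, h2]
      push_cast
      ring
    · have h4 : P (-(c + (N / 16 : ℕ))) = 2 ^ 1 * P (-(c + (N / 16 + 1 : ℕ))) :=
        P_shift 1 (by push_cast; ring)
      rw [h1, h2, h3, h4]
      push_cast
      ring

end LightA

theorem lfew : LFewStmt := by
  classical
  intro r n m j E ν w hm hj hF hw S hG h7 T hT
  obtain ⟨d, rfl⟩ : ∃ d, j = m + (d + 1) := ⟨j - m - 1, by omega⟩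
  have e1 : m + (d + 1) - m = d + 1 := by omega
  have hmap : ∀ i ∈ T, i / 8 ^ (d + 1) ∈ S m := fun i hi => by
    have := (hT i hi).1 m hm hj
    rwa [e1] at this
  have h1 : (T.card : ℝ) ≤ (S m).card * P ν := by
    rw [Finset.card_eq_sum_card_fiberwise (f := fun i => i / 8 ^ (d + 1)) (t := S m) hmap]
    push_cast
    rw [← nsmul_eq_mul]
    refine Finset.sum_le_card_nsmul _ _ _ fun A hA => hF A (hG m hm hj A hA) _ fun i hi => ?_
    obtain ⟨hi1, hi2⟩ := Finset.mem_filter.1 hi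
    obtain ⟨x, hx, ex⟩ := (hT i hi1).2
    exact ⟨x, hi2 ▸ node_sub m (d + 1) i hx, hx, ex⟩
  have h2 : (7 : ℝ) ^ d * (S m).card ≤ (S (m + (d + 1) - 1)).card := by
    exact_mod_cast LightA.grow h7 hm d (by omega)
  have h3 : P (ν + 3 + w) ≤ 7 ^ (d + 1) := LightA.seven (by push_cast at hw ⊢; linarith)
  have h4 : P ν ≤ P (-w) * 7 ^ d := by
    have h5 : 2 ^ 3 * P ν = P (-w) * P (ν + 3 + w) := by
      rw [← P_shift 3 (rfl : ν + (3 : ℕ) = ν + (3 : ℕ))]
      exact (P_mul (by push_cast; ring)).symm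
    have h6 := mul_le_mul_of_nonneg_left h3 (P_pos (-w)).le
    have h8 : 0 < P (-w) * 7 ^ d := mul_pos (P_pos _) (by positivity)
    rw [pow_succ, ← mul_assoc] at h6
    linarith
  calc (T.card : ℝ) ≤ (S m).card * (P (-w) * 7 ^ d) :=
        h1.trans (mul_le_mul_of_nonneg_left h4 (Nat.cast_nonneg _))
    _ = P (-w) * (7 ^ d * (S m).card) := by ring
    _ ≤ _ := mul_le_mul_of_nonneg_left h2 (P_pos _).le

theorem lor : LOrStmt := by
  classical
  intro r n j E E1 E2 w w1 w2 h1 h2 hE hw S hG h7 T hT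
  have a1 := h1 S hG h7 (T.filter fun i => ∃ x ∈ Node j i, E1 x) fun i hi =>
    ⟨(hT i (Finset.mem_filter.1 hi).1).1, (Finset.mem_filter.1 hi).2⟩
  have a2 := h2 S hG h7 (T.filter fun i => ¬ ∃ x ∈ Node j i, E1 x) fun i hi => by
    obtain ⟨hi1, hi2⟩ := Finset.mem_filter.1 hi
    obtain ⟨x, hx, ex⟩ := (hT i hi1).2
    exact ⟨(hT i hi1).1, x, hx, (hE x ex).resolve_left fun h => hi2 ⟨x, hx, h⟩⟩
  have a3 := Finset.card_filter_add_card_filter_not (s := T) fun i => ∃ x ∈ Node j i, E1 x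
  have a4 := mul_le_mul_of_nonneg_right hw (Nat.cast_nonneg (α := ℝ) (S (j - 1)).card)
  rw [← a3, Nat.cast_add]
  linarith

theorem lsum : LSumStmt := by
  intro r n j N C E c h
  have key : ∀ M, M ≤ N → Light r n j (fun x => ∃ l, l < M ∧ C l ∧ E l x)
      (∑ l ∈ Finset.range M, P (-(c + (l / 16 : ℕ)))) := by
    intro M
    induction M with
    | zero => exact fun _ => light_empty (fun x ⟨l, hl, _⟩ => absurd hl (by omega)) (by simp)
    | succ M ih =>
      intro hM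
      have h1 : Light r n j (fun x => C M ∧ E M x) (P (-(c + (M / 16 : ℕ)))) := by
        by_cases hC : C M
        · exact light_mono (h M hM hC) (fun x hx => hx.2) le_rfl
        · exact light_empty (fun x hx => hC hx.1) (P_pos _).le
      refine lor r n j _ _ _ _ _ _ (ih (by omega)) h1 ?_ (Finset.sum_range_succ _ _).ge
      rintro x ⟨l, hl, h2⟩
      rcases Nat.lt_succ_iff_lt_or_eq.1 hl with h3 | rfl
      · exact Or.inl ⟨l, h3, h2⟩
      · exact Or.inr h2
  refine light_mono (key N le_rfl) (fun _ hx => hx) ?_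
  have h1 := LightA.geo c N
  have h2 : ((N % 16 : ℕ) : ℝ) ≤ 32 := by exact_mod_cast (show N % 16 ≤ 32 by omega)
  have h3 := mul_nonneg (sub_nonneg.2 h2) (P_pos (-(c + (N / 16 : ℕ)))).le
  linarith

end ExOrd
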