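import Pool.Agent.Lib.MP_a94b90_nt.EX.Stmt

/-! EX row 5: the dual event is concentrated near one rational number. -/

namespace ExOrd
open Set

namespace Dual

/-- transport of the two small quantities from `x` to a nearby point `z`. -/
theorem move {r g s n0 n1 n m : ℕ} (par : Par r g s n0 n1 n) (hm : m + 4 = n1) {x z : ℝ}
    (hxz : |z - x| ≤ P (-3 * m)) {p q t : ℤ} (h2 : |(p : ℝ)| ≤ P (2 * n + 2 * s + 1))
    (h3 : |(p : ℝ) * x - q| ≤ P (-n - 18 * s + 1))
    (h4 : |(p : ℝ) * x ^ 2 - 2 * q * x + t| ≤ P (-n - 18 * s + 1)) :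
    |(p : ℝ) * z - q| ≤ P (2 * n + 2 * s + 2 - 3 * m) ∧
      |(p : ℝ) * z ^ 2 - 2 * q * z + t| ≤ P (-n - 18 * s + 3) := by
  obtain ⟨hr, hg, hs, hn, hb⟩ := par
  have h5 : |(p : ℝ) * (z - x)| ≤ P (2 * n + 2 * s + 1 - 3 * m) := mul_le_P h2 hxz (by omega)
  constructor
  · have e : (p : ℝ) * z - q = ((p : ℝ) * x - q) + p * (z - x) := by ring
    rw [e]
    exact add_le_P h3 h5 (by omega) (by omega)
  · have e : (p : ℝ) * z ^ 2 - 2 * q * z + t = ((p : ℝ) * x ^ 2 - 2 * q * x + t) +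
        (2 * (((p : ℝ) * x - q) * (z - x)) + (p * (z - x)) * (z - x)) := by ring
    rw [e]
    have h6 : |((p : ℝ) * x - q) * (z - x)| ≤ P (-n - 18 * s) := mul_le_P h3 hxz (by omega)
    have h7 : |2 * (((p : ℝ) * x - q) * (z - x))| ≤ P (-n - 18 * s + 1) :=
      two_mul_le_P h6 (by omega)
    have h8 : |((p : ℝ) * (z - x)) * (z - x)| ≤ P (-n - 18 * s + 1) :=
      mul_le_P h5 hxz (by omega)
    have h9 := add_le_P (c := -n - 18 * s + 2) h7 h8 (by omega) (by omega)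
    exact add_le_P h4 h9 (by omega) (by omega)

/-- distance to the rational number `q / p`. -/
theorem near {a b c : ℤ} {x : ℝ} {p q : ℤ} (h1 : P a ≤ |(p : ℝ)|) (h3 : |(p : ℝ) * x - q| ≤ P b)
    (hc : b - a ≤ c) : |x - (q : ℝ) / p| ≤ P c := by
  have hp : (p : ℝ) ≠ 0 := abs_pos.1 ((P_pos a).trans_le h1)
  have e : (p : ℝ) * x - q = p * (x - (q : ℝ) / p) := by field_simp
  rw [e] at h3
  exact div_le_P h1 h3 hc

end Dual

theorem dual (hz : ZStmt) : DualStmt := by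
  intro r g s n0 n1 n par A hA T hT
  obtain ⟨m, hm⟩ : ∃ m, m + 4 = n1 := ⟨n1 - 4, by
    obtain ⟨hr, hg, hs, hn, hb⟩ := par
    omega⟩
  have hm' : n1 - 4 = m := by omega
  rw [hm'] at hA hT
  have key : ∀ x y, (x ∈ Node m A ∧ EvA s n x) → (y ∈ Node m A ∧ EvA s n y) →
      |x - y| ≤ P ((1 : ℕ) - 3 * n1) := by
    rintro x y ⟨hx, p, q, t, h1, h2, h3, h4⟩ ⟨hy, p', q', t', h1', h2', h3', h4'⟩
    obtain ⟨hu, hw⟩ := Dual.move par hm (node_dist hx hx) h2 h3 h4
    obtain ⟨hu', hw'⟩ := Dual.move par hm (node_dist hx hy) h2' h3' h4'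
    obtain ⟨hr, hg, hs, hn, hb⟩ := par
    have hbox : Box r m (5 * s) x (q * p' - p * q') (p * t' - t * p') (t * q' - q * t') := by
      refine ⟨?_, ?_, ?_⟩
      · have e : Lv (q * p' - p * q') (p * t' - t * p') (t * q' - q * t') x =
            ((p : ℝ) * x - q) * ((p' : ℝ) * x ^ 2 - 2 * q' * x + t') -
              ((p' : ℝ) * x - q') * ((p : ℝ) * x ^ 2 - 2 * q * x + t) := by
          unfold Lv; push_cast; ring
        rw [e]
        exact sub_le_P (mul_le_P hu hw' le_rfl) (mul_le_P hu' hw le_rfl) (by omega) (by omega)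
      · have e : Dv (q * p' - p * q') (p * t' - t * p') x =
            (p : ℝ) * ((p' : ℝ) * x ^ 2 - 2 * q' * x + t') -
              (p' : ℝ) * ((p : ℝ) * x ^ 2 - 2 * q * x + t) := by
          unfold Dv; push_cast; ring
        rw [e]
        exact sub_le_P (mul_le_P h2 hw' le_rfl) (mul_le_P h2' hw le_rfl) (by omega) (by omega)
      · have e : ((q * p' - p * q' : ℤ) : ℝ) =
            (p : ℝ) * ((p' : ℝ) * x - q') - (p' : ℝ) * ((p : ℝ) * x - q) := by
          push_cast; ring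
        rw [e]
        exact sub_le_P (mul_le_P h2 hu' le_rfl) (mul_le_P h2' hu le_rfl) (by omega) (by omega)
    have ha := (hz r m (5 * s) x _ _ _ (hA x hx) (by omega) hbox).1
    have hp : (p : ℝ) ≠ 0 := abs_pos.1 ((P_pos _).trans_le h1)
    have hp' : (p' : ℝ) ≠ 0 := abs_pos.1 ((P_pos _).trans_le h1')
    have hqq : (q : ℝ) / p = (q' : ℝ) / p' := by
      rw [div_eq_div_iff hp hp']
      have : ((q * p' - p * q' : ℤ) : ℝ) = 0 := by rw [ha]; simp
      push_cast at this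
      linarith
    have d1 : |x - (q : ℝ) / p| ≤ P (-3 * n1) := Dual.near h1 h3 (by omega)
    have d2 : |y - (q' : ℝ) / p'| ≤ P (-3 * n1) := Dual.near h1' h3' (by omega)
    have e : x - y = (x - (q : ℝ) / p) - (y - (q' : ℝ) / p') := by rw [hqq]; ring
    rw [e]
    exact sub_le_P d1 d2 (by omega) (by omega)
  have := diam_P (j := n1) (ρ := 1) key T fun i hi => by
    obtain ⟨x, h1, h2, h3⟩ := hT i hi
    exact ⟨x, h2, h1, h3⟩
  exact le_P this (by omega)

end ExOrd
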