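import Pool.Agent.Lib.MP_a94b90_nt.EX.Stmt

/-! EX: the extra events removed at the last level have small weight. -/

namespace ExOrd
open Set

namespace Extra

theorem pt (r m j : ℕ) (a0 : ℝ) : Few r m j (fun x => x = a0) (P 2) := by
  intro A _ T hT
  have h := diam_P (j := j) (ρ := 0) (E := fun x => x = a0)
    (fun x y hx hy => by rw [hx, hy, sub_self, abs_zero]; exact (P_pos _).le) T
    fun i hi => let ⟨x, _, h1, h2⟩ := hT i hi; ⟨x, h1, h2⟩
  simpa using h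

theorem evB (hk : KillStmt) (hf : LFewStmt) {r g s n0 n1 n : ℕ} (par : Par r g s n0 n1 n) (l : ℕ)
    (h1 : s < 2 * l) (h2 : 2 * l ≤ n + g + 2 + kk l) :
    Light r n0 n1 (EvB g s n l) (P (-(7 + (l / 16 : ℕ)))) := by
  obtain ⟨hr, hg, hs, hn, hb⟩ := par
  refine hf r n0 (n1 - (l - l / 4)) n1 _ _ _ ?_ ?_
    (hk r (n1 - (l - l / 4)) n1 l (6 * r + g + 53 + l / 8 + (l - l / 4)) 0 _ _ _ _
      ?_ ?_ ?_ ?_ ?_ ?_ ?_) ?_ <;> unfold kk at * <;> omega

end Extra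

theorem extra (hk : KillStmt) (hq : RatStmt) (hf : LFewStmt) (ho : LOrStmt) (hs : LSumStmt)
    (hd : DualStmt) : ExtraStmt := by
  intro r g s n0 n1 n a0 par
  have hB := hs r n0 n1 (n + g + 50) (fun l => s < 2 * l ∧ 2 * l ≤ n + g + 2 + kk l)
    (fun l => EvB g s n l) 7 fun l _ h => Extra.evB hk hf par l h.1 h.2
  have hD := hd r g s n0 n1 n par
  obtain ⟨hr, hg, hs', hn, hb⟩ := par
  have hA := hf r n0 (n1 - 4) n1 _ 3 5 (by omega) (by omega) hD (by omega)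
  have hQ := hf r n0 (n1 - 4) n1 _ _ 5 (by omega) (by omega)
    (hq r (n1 - 4) n1 1 (3 * n1 - 14) (-3 * n1) (by omega) (by omega) (by omega)) (by omega)
  have hP := hf r n0 (n1 - 4) n1 _ 2 6 (by omega) (by omega) (Extra.pt r (n1 - 4) n1 a0) (by omega)
  have h1 := ho r n0 n1 (fun x => EvA s n x ∨ EvQ (3 * n1 - 14) (-3 * n1) x) _ _ _ _ _ hA hQ
    (fun _ h => h) le_rfl
  have h2 := ho r n0 n1 (fun x => (EvA s n x ∨ EvQ (3 * n1 - 14) (-3 * n1) x) ∨ x = a0) _ _ _ _ _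
    h1 hP (fun _ h => h) le_rfl
  refine ho r n0 n1 _ _ _ _ _ _ h2 hB (fun x h => ?_) (by unfold P; norm_num)
  rcases h with h | h
  · by_contra hc
    refine h ⟨fun a => hc (.inl (.inl (.inl a))), fun a => hc (.inl (.inl (.inr a))),
      fun l a b c => hc (.inr ⟨l, ?_, ⟨a, b⟩, c⟩)⟩
    unfold kk at b
    omega
  · exact .inl (.inr h)

end ExOrd
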