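import Pool.Agent.Lib.MP_a94b90_nt.EX.Stmt

/-! EX: the nested construction and the unified theorem. -/

namespace ExOrd
open Set

namespace Final

theorem nest {St : ℕ × ℕ → Prop} {Pr : ℕ → ℝ → Prop} {i0 : ℕ × ℕ} (h0 : St i0)
    (step : ∀ k i, St i → ∃ i', St i' ∧ Node i'.1 i'.2 ⊆ Node i.1 i.2 ∧
      ∀ x ∈ Node i'.1 i'.2, Pr k x) : ∃ x, ∀ k, Pr k x := by
  choose f f1 f2 f3 using step
  let s : ℕ → {i // St i} := fun k => Nat.rec ⟨i0, h0⟩ (fun k s => ⟨f k s.1 s.2, f1 k s.1 s.2⟩) k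
  obtain ⟨x, hx⟩ := IsCompact.nonempty_iInter_of_sequence_nonempty_isCompact_isClosed
    (fun k => Node (s k).1.1 (s k).1.2) (fun k => f2 k (s k).1 (s k).2)
    (fun k => ⟨_, node_left _ _⟩) isCompact_Icc fun k => isClosed_Icc
  exact ⟨x, fun k => f3 k (s k).1 (s k).2 x (mem_iInter.1 hx (k + 1))⟩

theorem init {ψ : ℕ → ℝ} {H0 : ℕ} (h0 : 1 ≤ H0)
    (hs : ∀ H : ℕ, H0 ≤ H → (H : ℝ) ^ 2 * ψ H ≤ P (-432000)) : State ψ H0 100 0 0 := by
  refine ⟨le_rfl, node_zero.le, fun x _ => ⟨fun u l a b c hu hb => ?_, fun u hu ρ h _ => ?_⟩,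
    fun x _ a b c h1 h2 => ?_, fun H h1 _ => ?_⟩
  · by_contra hd
    have := rg_box hb hd
    unfold kk at hu
    omega
  · have h1 : (1 : ℝ) ≤ ρ.den := by exact_mod_cast ρ.pos
    exact absurd (h1.trans h) (not_le.2 (P_lt_one (by omega)))
  · have h3 : (1 : ℝ) ≤ Ht a b c := by exact_mod_cast h0.trans h1
    have h4 := h2.trans_lt (P_lt_one (by omega))
    linarith
  · have h2 := hs H h1
    have h3 : P (-431994) = 2 ^ 6 * P (-432000) := P_shift 6 (by omega)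
    have h4 := P_pos (-432000)
    refine le_P (a := -431994) ?_ (by omega)
    rw [h3]
    linarith

theorem descend (h2 : DownStmt) {ψ : ℕ → ℝ} {H0 : ℕ} (h0 : 1 ≤ H0) (t : ℕ) :
    ∀ n i, State ψ H0 (100 + t) n i → ∃ n1 i1, State ψ H0 100 n1 i1 ∧ Node n1 i1 ⊆ Node n i := by
  induction t with
  | zero => exact fun n i h => ⟨n, i, h, Subset.rfl⟩
  | succ t ih =>
    intro n i h
    obtain ⟨n1, i1, h3, h4⟩ := h2 ψ H0 (100 + t) n i h0 (Nat.le_add_right _ _) h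
    obtain ⟨n2, i2, h5, h6⟩ := ih n1 i1 h3
    exact ⟨n2, i2, h5, h6.trans h4⟩

theorem choice (V : ℕ → Prop) (h8 : V 8) (k : ℕ) :
    ∃ G, 8 ≤ G ∧ V G ∧ ∀ g, g ≤ k → V g → g ≤ G := by
  classical
  refine ⟨Nat.findGreatest V (8 + k), Nat.le_findGreatest (Nat.le_add_right _ _) h8,
    Nat.findGreatest_spec (Nat.le_add_right _ _) h8, fun g hg hV => ?_⟩
  exact Nat.le_findGreatest (by omega) hV

end Final

theorem final (h1 : StepStmt) (h2 : DownStmt) : MainThm := by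
  intro ψ H0 hm hp h0 hs hc
  obtain ⟨e, he⟩ := countable_iff_exists_subset_range.1 hc
  choose G G1 G2 G3 using Final.choice
    (fun g : ℕ => ∃ N : ℕ, ∀ H : ℕ, N ≤ H → (H : ℝ) ^ 2 * ψ H ≤ P (-4000 * (100 + g)))
    ⟨H0, fun H hH => le_P (hs H hH) (by norm_num)⟩
  obtain ⟨ξ, hξ⟩ := Final.nest (St := fun i => State ψ H0 100 i.1 i.2)
    (Pr := fun k x => x ≠ e k ∧ (∀ a b c : ℤ, H0 ≤ Ht a b c → 3 * (Ht a b c : ℝ) ≤ P k →
      ψ (Ht a b c) ≤ |Lv a b c x|) ∧ ∃ a b c : ℤ, k ≤ Ht a b c ∧ ¬ IsSquare (b ^ 2 - 4 * a * c) ∧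
        |Lv a b c x| ≤ (1 + P (-G k)) * ψ (Ht a b c))
    (i0 := (0, 0)) (Final.init h0 hs) fun k i hi => by
      obtain ⟨r2, n2, i2, s2, a1, a2, a3, a, b, c, a4, a5, a6⟩ :=
        h1 ψ H0 100 i.1 i.2 (G k) k (e k) hm hp h0 hi (G1 k) (G2 k)
      obtain ⟨t, rfl⟩ := Nat.exists_eq_add_of_le s2.hr
      obtain ⟨n3, i3, s3, b1⟩ := Final.descend h2 h0 t n2 i2 s2
      refine ⟨(n3, i3), s3, b1.trans a1, fun x hx => ⟨fun h => a2 (h ▸ b1 hx),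
        fun a' b' c' c1 c2 => ?_, a, b, c, a4, a5, a6 x (b1 hx)⟩⟩
      exact s2.low x (b1 hx) a' b' c' c1 (le_P c2 (by omega))
  obtain ⟨k, hk⟩ := he (a := ξ) ⟨fun a b c h => (hξ (3 * Ht a b c)).2.1 a b c h
    (by exact_mod_cast (nat_lt_P (3 * Ht a b c)).le), fun g hg hV K => by
      obtain ⟨a, b, c, a1, a2, a3⟩ := (hξ (max K g)).2.2
      have a4 := G3 (max K g) g (le_max_right _ _) hV
      have a5 := hp (Ht a b c) (by omega)
      have a6 : P (-G (max K g)) ≤ P (-g) := P_le (by omega)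
      exact ⟨a, b, c, by omega, a2, a3.trans (by gcongr)⟩⟩
  exact (hξ k).1 hk.symm

end ExOrd
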