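import Pool.Agent.Lib.MP_a94b90_nt.EX.Stmt

/-! EX: the main step, a good node has few bad children. -/

namespace ExOrd

theorem main (hk : KillStmt) (hq : RatStmt) (hf : LFewStmt) (ho : LOrStmt) (hs : LSumStmt) :
    MainStmt := by
  intro r n j hr hn
  have h1 := hs r n (j + 1) (j + 1) (fun l => n + kk l < j + 1 ∧ 2 * l + (2 * r + 2) ≤ j + 1)
    (fun l => EvK (-(2 * r + 2) - 2 * (j + 1 : ℕ) - 2 * l) ((j + 1 : ℕ) - (2 * r + 2) - 2 * l)
      ((j + 1 : ℕ) - (2 * r + 2) + l) ((j + 1 : ℕ) - (2 * r + 2) - 2 * l - 3)) 7 (by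
      rintro l - ⟨c1, c2⟩
      refine hf r n (j + 1 - kk l) (j + 1) _ _ _ (by omega) (by unfold kk at *; omega)
        (hk r (j + 1 - kk l) (j + 1) l (kk l) 5 _ _ _ _ ?_ ?_ ?_ ?_ ?_ ?_ ?_) ?_ <;>
      unfold kk at * <;> omega)
  have h2 : Light r n (j + 1) (fun x => n + 4 < j + 1 ∧
      EvQ (2 * (j + 1 : ℕ) - 2 * r) (1 - 3 * (j + 1 : ℕ)) x) (P (-2)) := by
    by_cases c : n + 4 < j + 1
    · refine light_mono (hf r n (j + 1 - 4) (j + 1) _ _ 2 (by omega) (by omega)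
        (hq r (j + 1 - 4) (j + 1) 2 (2 * (j + 1 : ℕ) - 2 * r) (1 - 3 * (j + 1 : ℕ))
          (by omega) (by omega) (by omega)) (by omega)) (fun x h => h.2) le_rfl
    · exact light_empty (fun x h => c h.1) (P_pos _).le
  refine ho r n (j + 1) _ _ _ _ _ _ h1 h2 ?_ (by
    rw [show (5 - 7 : ℤ) = -2 by norm_num, P_neg_two]; norm_num)
  rintro x ⟨hS, hG, hB⟩
  by_cases c : PP r (j + 1) x
  · have c2 : ¬ RR r (j + 1) x := fun e => hB ⟨c, e⟩
    right
    refine ⟨?_, ?_⟩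
    · by_contra e
      exact c2 (by simpa [show n + (j + 1 - n) = j + 1 by omega] using hS.2 (j + 1 - n) (by omega))
    · unfold RR at c2
      push Not at c2
      obtain ⟨ρ, a1, a2, a3⟩ := c2
      have a4 : P (j - r) < ρ.den := by
        by_contra e
        exact absurd ((hG.2 ρ (not_lt.1 e) a2).trans_le a3) (not_lt.2 (P_le (by omega)))
      have a5 : (0 : ℝ) ≤ ρ.den := Nat.cast_nonneg _
      refine ⟨ρ, ?_, ?_⟩
      · refine (pow_le_pow_left₀ a5 a1 2).trans ?_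
        rw [P_sq]
        exact P_le (by omega)
      · refine div_le_P (d := (ρ.den : ℝ) ^ 3) (b := 3 * (j - r)) (a := -3 * r - 2) ?_ ?_ (by omega)
        · rw [← P_cube, abs_of_nonneg (pow_nonneg a5 3)]
          exact pow_le_pow_left₀ (P_pos _).le a4.le 3
        · rwa [abs_mul, abs_of_nonneg (pow_nonneg a5 3)]
  · left
    unfold PP at c
    push Not at c
    obtain ⟨l, a, b, c, hb, hd⟩ := c
    have a1 := rg_box hb hd
    refine ⟨l, by omega, ⟨?_, a1⟩, a, b, c, hb, ?_⟩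
    · by_contra e
      refine hd (hS.1 (j + 1 - n) l a b c (by omega) ?_)
      rwa [show n + (j + 1 - n) = j + 1 by omega]
    · by_contra e
      exact hd (hG.1 (l + 1) a b c (up_box hb (not_lt.1 e)))

end ExOrd
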