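import Pool.Agent.Lib.MP_a94b90_nt.EX.Stmt

/-! EX: a second small form is an integral multiple of the primitive one. -/

namespace ExOrd
open Set

namespace Pair

theorem mult {k j a b c a' b' c' : ℤ} (hk : 0 < k)
    (hp : ∀ t : ℤ, t ∣ a → t ∣ b → t ∣ c → IsUnit t) (ha : k * a' - j * a = 0)
    (hb : k * b' - j * b = 0) (hc : k * c' - j * c = 0) :
    ∃ t : ℤ, a' = t * a ∧ b' = t * b ∧ c' = t * c := by
  have hg : 0 < Int.gcd k j := Int.gcd_pos_of_ne_zero_left j hk.ne'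
  obtain ⟨k1, j1, h1, h2, h3⟩ := Int.exists_gcd_one hg
  have hd : ((Int.gcd k j : ℕ) : ℤ) ≠ 0 := by exact_mod_cast hg.ne'
  generalize ((Int.gcd k j : ℕ) : ℤ) = d at h2 h3 hd
  have hco : IsCoprime k1 j1 := Int.isCoprime_iff_gcd_eq_one.2 h1
  have key : ∀ u u' : ℤ, k * u' - j * u = 0 → k1 * u' = j1 * u := fun u u' h => by
    refine mul_right_cancel₀ hd ?_
    rw [h2, h3] at h
    linear_combination h
  have dv : ∀ u u' : ℤ, k * u' - j * u = 0 → k1 ∣ u := fun u u' h =>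
    hco.dvd_of_dvd_mul_left ⟨u', (key u u' h).symm⟩
  have hu : k1 * k1 = 1 := by
    rcases Int.isUnit_iff.1 (hp k1 (dv a a' ha) (dv b b' hb) (dv c c' hc)) with h | h <;>
      rw [h] <;> norm_num
  have fin : ∀ u u' : ℤ, k * u' - j * u = 0 → u' = k1 * j1 * u := fun u u' h => by
    linear_combination k1 * key u u' h - u' * hu
  exact ⟨k1 * j1, fin a a' ha, fin b b' hb, fin c c' hc⟩

theorem dirich (D D' : ℝ) (N : ℕ) (A : ℤ) (h0 : D ≠ 0) (hD : |D| ≤ P A) :
    ∃ j k : ℤ, 0 < k ∧ |(k : ℝ)| ≤ P N ∧ |k * D' - j * D| ≤ P (A - N) := by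
  obtain ⟨j, k, h1, h2, h3⟩ := Real.exists_int_int_abs_mul_sub_le (D' / D)
    (show 0 < 2 ^ N by positivity)
  refine ⟨j, k, h1, ?_, ?_⟩
  · rw [P_nat, abs_of_pos (by exact_mod_cast h1)]
    exact_mod_cast h2
  · have h4 : (k : ℝ) * D' - j * D = D * (k * (D' / D) - j) := by field_simp
    have h5 : |(k : ℝ) * (D' / D) - j| ≤ P (-N) := by
      refine h3.trans ?_
      have h6 : P (-N) * P N = 1 := (P_mul (by ring)).trans P_zero
      have h7 := P_pos (-(N : ℤ))
      rw [P_nat] at h6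
      rw [div_le_iff₀ (by positivity)]
      push_cast
      nlinarith
    rw [h4]
    exact mul_le_P hD h5 (by omega)

end Pair

theorem pair (hz : ZStmt) : PairStmt := by
  intro r g s n0 n1 n x a b c a' b' c' par good hA vec hL hB
  obtain ⟨hr, hg, hs, hn, hb⟩ := par
  obtain ⟨hL', hD', ha'⟩ := hB
  have ha := vec.ha
  have lo := vec.lo
  have hi := vec.hi
  have e1 : ((b * a' - a * b' : ℤ) : ℝ) = Dv a b x * a' - a * Dv a' b' x := by
    unfold Dv; push_cast; ring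
  have e2 : ((b * a' - a * b' : ℤ) : ℝ) * x - ((a * c' - c * a' : ℤ) : ℝ) =
      Lv a b c x * a' - a * Lv a' b' c' x := by
    unfold Lv; push_cast; ring
  have e3 : ((b * a' - a * b' : ℤ) : ℝ) * x ^ 2 - 2 * ((a * c' - c * a' : ℤ) : ℝ) * x +
      ((c * b' - b * c' : ℤ) : ℝ) = Lv a b c x * Dv a' b' x - Dv a b x * Lv a' b' c' x := by
    unfold Lv Dv; push_cast; ring
  have b3 : |Lv a b c x * Dv a' b' x - Dv a b x * Lv a' b' c' x| ≤ P (-n - 18 * s + 1) :=
    sub_le_P (mul_le_P hL hD' le_rfl) (mul_le_P hi hL' le_rfl) (by omega) (by omega)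
  have hp : |((b * a' - a * b' : ℤ) : ℝ)| ≤ P (2 * n - 10 * s) := by
    by_contra h
    refine hA ⟨b * a' - a * b', a * c' - c * a', c * b' - b * c', (not_le.1 h).le, ?_, ?_, ?_⟩
    · rw [e1]
      exact sub_le_P (mul_le_P hi ha' le_rfl) (mul_le_P ha hD' le_rfl) (by omega) (by omega)
    · rw [e2]
      exact sub_le_P (mul_le_P hL ha' le_rfl) (mul_le_P ha hL' le_rfl) (by omega) (by omega)
    · rw [e3]
      exact b3
  have h0 : Dv a b x ≠ 0 := fun h => by
    rw [h, abs_zero] at lo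
    exact absurd (P_pos _) (not_lt.2 lo)
  obtain ⟨j, k, hk, hk', hW⟩ := Pair.dirich (Dv a b x) (Dv a' b' x) (6 * r + 14) _ h0 hi
  have f1 : Dv (k * a' - j * a) (k * b' - j * b) x = k * Dv a' b' x - j * Dv a b x := by
    unfold Dv; push_cast; ring
  have f2 : Dv a b x * ((k * a' - j * a : ℤ) : ℝ) =
      k * ((b * a' - a * b' : ℤ) : ℝ) + a * (k * Dv a' b' x - j * Dv a b x) := by
    unfold Dv; push_cast; ring
  have f3 : Dv a b x * Lv (k * a' - j * a) (k * b' - j * b) (k * c' - j * c) x =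
      Lv a b c x * (k * Dv a' b' x - j * Dv a b x) -
        k * (Lv a b c x * Dv a' b' x - Dv a b x * Lv a' b' c' x) := by
    unfold Lv Dv; push_cast; ring
  have box : Box r n1 0 x (k * a' - j * a) (k * b' - j * b) (k * c' - j * c) := by
    refine ⟨div_le_P (a := 6 * r + 16 - n - 18 * s) lo ?_ (by omega), ?_,
      div_le_P (a := 2 * n - 12 * r - 23) lo ?_ (by omega)⟩
    · rw [f3]
      exact sub_le_P (mul_le_P hL hW le_rfl) (mul_le_P hk' b3 le_rfl) (by omega) (by omega)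
    · rw [f1]
      exact le_P hW (by omega)
    · rw [f2]
      exact add_le_P (mul_le_P hk' hp le_rfl) (mul_le_P ha hW le_rfl) (by omega) (by omega)
  obtain ⟨z1, z2, z3⟩ := hz r n1 0 x _ _ _ good (Nat.zero_le _) box
  exact Pair.mult hk vec.prim z1 z2 z3

end ExOrd
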