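import Pool.Agent.Lib.MP_a94b90_nt.EX.Stmt

/-! EX row 7: one phase of the tree construction. -/

namespace ExOrd
open Set

namespace Phase

/-- the eight children of every member. -/
def ch (T : Finset ℕ) : Finset ℕ := T.biUnion fun A => Finset.Ico (8 * A) (8 * A + 8)

theorem mem_ch {T : Finset ℕ} {k : ℕ} : k ∈ ch T ↔ k / 8 ∈ T := by
  unfold ch
  simp only [Finset.mem_biUnion, Finset.mem_Ico]
  constructor
  · rintro ⟨A, hA, h1, h2⟩
    have : k / 8 = A := by omega
    rwa [this]
  · intro h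
    exact ⟨k / 8, h, by omega, by omega⟩

theorem card_ch (T : Finset ℕ) : (ch T).card = 8 * T.card := by
  unfold ch
  rw [Finset.card_biUnion]
  · simp [mul_comm]
  · intro A _ B _ hAB
    refine Finset.disjoint_left.2 fun k h1 h2 => hAB ?_
    rw [Finset.mem_Ico] at h1 h2
    omega

open Classical in
/-- the tree, indexed by the depth below the root. -/
noncomputable def Sd (i : ℕ) (Q : ℕ → ℕ → Prop) : ℕ → Finset ℕ
  | 0 => {i}
  | d + 1 => (ch (Sd i Q d)).filter (Q (d + 1))

theorem mem_succ {i : ℕ} {Q : ℕ → ℕ → Prop} {d k : ℕ} :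
    k ∈ Sd i Q (d + 1) ↔ k / 8 ∈ Sd i Q d ∧ Q (d + 1) k := by
  classical
  rw [Sd, Finset.mem_filter, mem_ch]

theorem anc {i : ℕ} {Q : ℕ → ℕ → Prop} (d e : ℕ) :
    ∀ k, k ∈ Sd i Q (d + e) → k / 8 ^ e ∈ Sd i Q d := by
  induction e with
  | zero => intro k hk; simpa using hk
  | succ e ih =>
    intro k hk
    have h1 := ih _ (mem_succ.1 hk).1
    rwa [Nat.div_div_eq_div_mul, ← pow_succ'] at h1

end Phase

open Phase in
theorem phase (ho : LOrStmt) (hm : MainStmt) : PhaseStmt := by
  classical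
  intro r n i n1 E hr hn hst hE
  let Q : ℕ → ℕ → Prop := fun d k =>
    ∀ x ∈ Node (n + d) k, Good r (n + d) x ∧ (n + d = n1 → ¬ E x)
  let S : ℕ → Finset ℕ := fun m => Sd i Q (m - n)
  have hS : ∀ d, S (n + d) = Sd i Q d := fun d => by
    show Sd i Q (n + d - n) = _
    rw [Nat.add_sub_cancel_left]
  have hgood : ∀ m, n ≤ m → ∀ A ∈ S m, ∀ x ∈ Node m A, Good r m x := by
    intro m hnm A hA x hx
    obtain ⟨d, rfl⟩ := Nat.exists_eq_add_of_le hnm
    rw [hS] at hA
    cases d with
    | zero =>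
      have : A = i := by simpa [Sd] using hA
      subst this
      exact (hst x hx).good
    | succ d => exact ((mem_succ.1 hA).2 x hx).1
  have hanc : ∀ m j k, n ≤ m → m ≤ j → k ∈ S j → k / 8 ^ (j - m) ∈ S m := by
    intro m j k hnm hmj hk
    obtain ⟨d, rfl⟩ := Nat.exists_eq_add_of_le hnm
    obtain ⟨e, rfl⟩ := Nat.exists_eq_add_of_le hmj
    rw [add_assoc, hS] at hk
    rw [hS, Nat.add_sub_cancel_left]
    exact anc d e k hk
  have hsub : ∀ m j k, m ≤ j → Node j k ⊆ Node m (k / 8 ^ (j - m)) := by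
    intro m j k hmj
    obtain ⟨e, rfl⟩ := Nat.exists_eq_add_of_le hmj
    rw [Nat.add_sub_cancel_left]
    exact node_sub m e k
  have hroot : ∀ j k, n ≤ j → k ∈ S j → Node j k ⊆ Node n i := by
    intro j k hj hk
    have h1 := hanc n j k le_rfl hj hk
    have h2 : S n = {i} := hS 0
    rw [h2, Finset.mem_singleton] at h1
    rw [← h1]
    exact hsub n j k hj
  have hgrow : ∀ j, n ≤ j → j < n1 → 7 * (S j).card ≤ (S (j + 1)).card := by
    intro j
    induction j using Nat.strong_induction_on with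
    | _ j ih =>
      intro hj hj1
      have hL2 : Light r n (j + 1) (fun x => j + 1 = n1 ∧ E x) (1 / 2) := by
        by_cases h : j + 1 = n1
        · subst h
          exact light_mono hE (fun x hx => hx.2) le_rfl
        · exact light_empty (fun x hx => h hx.1) (by norm_num)
      have hL := ho r n (j + 1)
        (fun x => (StartAt r n x ∧ Good r j x ∧ ¬ Good r (j + 1) x) ∨ (j + 1 = n1 ∧ E x))
        _ _ 1 _ _ (hm r n j hr hj) hL2 (fun x hx => hx) (by norm_num)
      have hT := hL S (fun m h1 _ => hgood m h1)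
        (fun m h1 h2 => ih m (by omega) h1 (by omega)) (ch (S j) \ S (j + 1)) (by
          intro k hk
          obtain ⟨hk1, hk2⟩ := Finset.mem_sdiff.1 hk
          have hk3 := mem_ch.1 hk1
          refine ⟨fun m h1 h2 => ?_, ?_⟩
          · have h3 := hanc m j _ h1 (by omega) hk3
            rw [Nat.div_div_eq_div_mul, ← pow_succ'] at h3
            rwa [show j + 1 - m = j - m + 1 by omega]
          · obtain ⟨d, rfl⟩ := Nat.exists_eq_add_of_le hj
            have hk4 := hk3
            rw [hS] at hk4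
            rw [add_assoc, hS, mem_succ] at hk2
            have hq : ¬ Q (d + 1) k := fun h => hk2 ⟨hk4, h⟩
            by_contra hc
            refine hq fun x hx => ?_
            have hx1 : x ∈ Node (n + d) (k / 8) := by
              have := node_sub (n + d) 1 k hx
              rwa [pow_one] at this
            refine ⟨?_, fun h1 h2 => hc ⟨x, hx, Or.inr ⟨h1, h2⟩⟩⟩
            by_contra hg
            exact hc ⟨x, hx, Or.inl ⟨hst x (hroot _ _ hj hk3 hx1), hgood _ hj _ hk3 x hx1, hg⟩⟩)
      rw [one_mul, Nat.add_sub_cancel] at hT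
      have h1 : (ch (S j) \ S (j + 1)).card ≤ (S j).card := by exact_mod_cast hT
      have h2 := Finset.le_card_sdiff (S (j + 1)) (ch (S j))
      rw [card_ch] at h2
      omega
  have hpos : ∀ d, n + d ≤ n1 → 0 < (S (n + d)).card := by
    intro d
    induction d with
    | zero => intro _; rw [hS]; simp [Sd]
    | succ d ih =>
      intro h
      have h1 := hgrow (n + d) (by omega) (by omega)
      have h2 := ih (by omega)
      rw [← add_assoc]
      omega
  obtain ⟨d, hd⟩ : ∃ d, n1 = n + (d + 1) := ⟨n1 - n - 1, by omega⟩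
  obtain ⟨i1, hi1⟩ := Finset.card_pos.1 (hpos (d + 1) hd.ge)
  rw [← hd] at hi1
  refine ⟨i1, hroot n1 i1 hn.le hi1, fun x hx => ⟨fun j h1 h2 => ?_, ?_⟩⟩
  · exact hgood j h1 _ (hanc j n1 i1 h1 h2 hi1) x (hsub j n1 i1 h2 hx)
  · have h1 : i1 ∈ Sd i Q (d + 1) := by rw [← hS, ← hd]; exact hi1
    exact ((mem_succ.1 h1).2 x (by rw [← hd]; exact hx)).2 hd.symm

end ExOrd
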