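import Pool.Agent.Lib.MP_a94b90_nt.EX.Stmt

/-! EX row 4: at most one rational of small denominator is close to a short node. -/

namespace ExOrd
open Set

namespace Rat4

/-- distinct rationals are at distance at least `1/(den * den)`. -/
theorem sep {p q : ℚ} (h : p ≠ q) : (1 : ℝ) ≤ (p.den : ℝ) * q.den * |(p : ℝ) - q| := by
  have hp : (0 : ℝ) < p.den := by exact_mod_cast p.den_pos
  have hq : (0 : ℝ) < q.den := by exact_mod_cast q.den_pos
  have e1 : (p : ℝ) * p.den = p.num := by exact_mod_cast Rat.mul_den_eq_num p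
  have e2 : (q : ℝ) * q.den = q.num := by exact_mod_cast Rat.mul_den_eq_num q
  have e3 : (p.den : ℝ) * q.den * ((p : ℝ) - q) =
      ((p.num * q.den - q.num * p.den : ℤ) : ℝ) := by
    push_cast; rw [← e1, ← e2]; ring
  have hne : (p.num * q.den - q.num * p.den : ℤ) ≠ 0 := by
    intro h0
    rw [h0, Int.cast_zero] at e3
    rcases mul_eq_zero.1 e3 with h1 | h1
    · exact absurd h1 (mul_pos hp hq).ne'
    · exact h (by exact_mod_cast sub_eq_zero.1 h1)
  have h1 : (1 : ℝ) ≤ |((p.num * q.den - q.num * p.den : ℤ) : ℝ)| := by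
    exact_mod_cast Int.one_le_abs hne
  rw [← e3, abs_mul, abs_of_pos (mul_pos hp hq)] at h1
  exact h1

theorem eq_of_close {G : ℤ} {p q : ℚ} (hp : (p.den : ℝ) ^ 2 ≤ P G) (hq : (q.den : ℝ) ^ 2 ≤ P G)
    (h : |(p : ℝ) - q| ≤ P (-G - 1) + P (-G - 2)) : p = q := by
  by_contra hne
  have h1 := sep hne
  have h2 : (p.den : ℝ) * q.den ≤ P G := by nlinarith [sq_nonneg ((p.den : ℝ) - q.den)]
  have h3 : P G * P (-G - 1) = 1 / 2 := by rw [P_mul (c := -1) (by ring), P_neg_one]
  have h4 : P G * P (-G - 2) = 1 / 4 := by rw [P_mul (c := -2) (by ring), P_neg_two]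
  have h5 : (p.den : ℝ) * q.den * |(p : ℝ) - q| ≤ P G * (P (-G - 1) + P (-G - 2)) :=
    mul_le_mul h2 h (abs_nonneg _) (P_pos _).le
  rw [mul_add, h3, h4] at h5
  linarith

end Rat4

theorem rat : RatStmt := by
  intro r m j ρ G κ h1 h2 h3 A _ T hT
  refine diam_P (j := j) (E := fun x => x ∈ Node m A ∧ EvQ G κ x) ?_ T ?_
  · rintro x y ⟨hx, p, hp, hxp⟩ ⟨hy, q, hq, hyq⟩
    have hxy : |x - y| ≤ P (-G - 2) := le_P (node_dist hx hy) (by omega)
    have hd : |(x - p) - (y - q)| ≤ P (-G - 1) := sub_le_P hxp hyq (by omega) (by omega)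
    have hpq : p = q := by
      refine Rat4.eq_of_close hp hq ?_
      have e : (p : ℝ) - q = (x - y) - ((x - p) - (y - q)) := by ring
      rw [e]
      have := abs_sub (x - y) ((x - p) - (y - q))
      linarith
    subst hpq
    have e : x - y = (x - p) - (y - p) := by ring
    rw [e]
    exact sub_le_P hxp hyq (by omega) (by omega)
  · intro i hi
    obtain ⟨x, hx, hx', ex⟩ := hT i hi
    exact ⟨x, hx', hx, ex⟩

end ExOrd
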