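import Pool.Agent.Lib.MP_a94b90_nt.EX.Stmt

/-! EX row 10: the polynomial part of the start condition after lowering `r`. -/

namespace ExOrd

namespace ResetP

theorem push {r n1 : ℕ} {x : ℝ} {a b c : ℤ} (hd : b ^ 2 ≠ 4 * a * c) :
    ∀ J l : ℕ, Box r J l x a b c → n1 ≤ J + l → J ≤ n1 + kk l →
      ∃ j l' : ℕ, Box r j l' x a b c ∧ P (j - (2 * r + 2) - 2 * l' - 3) < |Dv a b x| ∧
        n1 ≤ j + l' ∧ j ≤ n1 + kk l' := by
  intro J
  induction J with
  | zero =>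
    intro l h _ _
    have := rg_box h hd
    omega
  | succ J ih =>
    intro l h h1 h2
    by_cases hD : |Dv a b x| ≤ P ((J + 1 : ℕ) - (2 * r + 2) - 2 * l - 3)
    · exact ih (l + 1) (up_box h hD) (by omega) (by unfold kk at *; omega)
    · exact ⟨J + 1, l, h, not_le.1 hD, h1, h2⟩

/-- the event of class `l` at level `j`. -/
def Ev (r j l : ℕ) : ℝ → Prop :=
  EvK (-(2 * r + 2) - 2 * j - 2 * l) (j - (2 * r + 2) - 2 * l) (j - (2 * r + 2) + l)
    (j - (2 * r + 2) - 2 * l - 3)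

theorem cls (hk : KillStmt) (hf : LFewStmt) {r n0 n1 j l t : ℕ} (hr : 100 ≤ r)
    (hn : 10 * n0 + 1000 ≤ n1) (h1 : j + l = n1 + t) (h2 : j ≤ n1 + kk l)
    (h3 : 2 * l + (2 * r + 2) ≤ j) :
    Light (r + 1) n0 n1 (Ev r j l) (P (-((12 + (l / 16 : ℕ) : ℤ) + (t / 16 : ℕ)))) := by
  unfold kk at h2
  have h4 := hk (r + 1) (j - (190 + 3 * l / 4)) n1 l (192 + 3 * l / 4) (5 + 3 * (n1 - j))
    (-(2 * r + 2) - 2 * j - 2 * l) (j - (2 * r + 2) - 2 * l) (j - (2 * r + 2) + l)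
    (j - (2 * r + 2) - 2 * l - 3) (by omega) (by omega) (by omega) (by omega) (by omega)
    (by omega) (by omega)
  exact hf (r + 1) n0 (j - (190 + 3 * l / 4)) n1 _ _ _ (by omega) (by omega) h4 (by omega)

end ResetP

open ResetP in
theorem resetP (hk : KillStmt) (hf : LFewStmt) (hs : LSumStmt) : ResetPStmt := by
  intro r n0 n1 hr hn
  have h := hs (r + 1) n0 n1 n1 (fun _ => True)
    (fun l x => ∃ t, t < l + kk l + 1 ∧
      (l ≤ n1 + t ∧ n1 + t - l ≤ n1 + kk l ∧ 2 * l + (2 * r + 2) ≤ n1 + t - l) ∧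
      Ev r (n1 + t - l) l x) 7 (by
      intro l _ _
      have h1 := hs (r + 1) n0 n1 (l + kk l + 1)
        (fun t => l ≤ n1 + t ∧ n1 + t - l ≤ n1 + kk l ∧ 2 * l + (2 * r + 2) ≤ n1 + t - l)
        (fun t => Ev r (n1 + t - l) l) (12 + (l / 16 : ℕ))
        (fun t _ ht => cls hk hf hr hn (by omega) ht.2.1 ht.2.2)
      exact light_mono h1 (fun _ h => h) (P_le (by omega)))
  refine light_mono h ?_ (by rw [← P_neg_two]; exact P_le (by norm_num))
  rintro x ⟨u, l, a, b, c, hu, hb, hd⟩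
  obtain ⟨j, l', h1, h2, h3, h4⟩ := push (n1 := n1) hd (n1 + u) l hb (by omega) (by omega)
  have h5 := rg_box h1 hd
  have h6 : n1 + (j + l' - n1) - l' = j := by omega
  refine ⟨l', by unfold kk at h4; omega, trivial, j + l' - n1, by omega, ?_, ?_⟩
  · rw [h6]; omega
  · rw [h6]; exact ⟨a, b, c, h1, h2⟩

end ExOrd
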