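import Pool.Agent.Lib.MP_a94b90_nt.EX.Stmt

/-! EX: the polynomial part of the start condition at the new root. -/

namespace ExOrd
open Set

namespace StartP

/-- small classes: the form is a multiple of the window vector, hence zero. -/
theorem small (hp : PairStmt) {r g s n0 n1 n r2 n2 : ℕ} {x μ : ℝ} {a b c : ℤ}
    (W : Win r g s n0 n1 n r2 n2 x μ a b c) {u l : ℕ} {a' b' c' : ℤ} (hu : u ≤ kk l)
    (hl : 2 * l ≤ s) (hB : Box r2 (n2 + u) l x a' b' c') : b' ^ 2 = 4 * a' * c' := by
  have h0 := le_of_P_le (W.m1.trans W.mu)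
  have e1 := W.e1
  have e2 := W.e2
  have hL : |Lv a b c x| ≤ P (-2 * n - 19 * s) := by
    have h1 := P_succ (-2 * n - 19 * s - 1)
    rw [sub_add_cancel] at h1
    have h2 := W.hi
    have h3 := W.mu
    linarith
  obtain ⟨hr, hg, hs, hn, hb⟩ := W.par
  unfold kk at hu
  obtain ⟨t, rfl, rfl, rfl⟩ := hp r g s n0 n1 n x a b c a' b' c' W.par W.good W.clean.1 W.vec hL
    (Bx.mono hB (by omega) (by omega) (by omega))
  rcases eq_or_ne t 0 with rfl | ht
  · simp
  exfalso
  have h1 : (1 : ℝ) ≤ |(t : ℝ)| := by exact_mod_cast Int.one_le_abs ht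
  have h2 := hB.1
  rw [Lv_mul, abs_mul] at h2
  have h3 : |Lv a b c x| ≤ |(t : ℝ)| * |Lv a b c x| := le_mul_of_one_le_left (abs_nonneg _) h1
  have h4 := le_of_P_le (W.m1.trans (W.lo.trans (h3.trans h2)))
  omega

/-- large classes: the derivative is small. -/
theorem large {r g s n0 n1 n r2 n2 : ℕ} {x μ : ℝ} {a b c : ℤ}
    (W : Win r g s n0 n1 n r2 n2 x μ a b c) {u l : ℕ} {a' b' c' : ℤ} (hu : u ≤ kk l)
    (hl : s < 2 * l) (hB : Box r2 (n2 + u) l x a' b' c') (hd : b' ^ 2 ≠ 4 * a' * c') :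
    |Dv a' b' x| ≤ P (n - 2 * l - s) := by
  have h0 := le_of_P_le (W.m1.trans W.mu)
  have e1 := W.e1
  have e2 := W.e2
  have h1 := rg_box hB hd
  by_contra hc
  exact W.clean.2.2 l hl (by omega)
    ⟨a', b', c', Bx.mono hB (by omega) (by omega) (by omega), not_le.1 hc⟩

end StartP

theorem startP (hp : PairStmt) : StartPStmt := by
  intro r g s n0 n1 n r2 n2 x μ a b c W u
  have h0 := le_of_P_le (W.m1.trans W.mu)
  have e1 := W.e1
  have e2 := W.e2
  obtain ⟨hr, hg, hs, hn, hb⟩ := W.par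
  induction u with
  | zero =>
    intro l a' b' c' hu hB
    rcases le_or_gt (2 * l) s with hl | hl
    · exact StartP.small hp W hu hl hB
    by_contra hd
    have hD := StartP.large W hu hl hB hd
    exact hd (W.good.1 (l + g + 6 * r + 13) a' b' c'
      ⟨le_P hB.1 (by omega), le_P hD (by omega), le_P hB.2.2 (by omega)⟩)
  | succ u ih =>
    intro l a' b' c' hu hB
    rcases le_or_gt (2 * l) s with hl | hl
    · exact StartP.small hp W hu hl hB
    by_contra hd
    have hD := StartP.large W hu hl hB hd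
    refine hd (ih (l + 1) a' b' c' ?_ (up_box (j := n2 + u) hB (le_P hD (by omega))))
    unfold kk at hu ⊢
    omega

end ExOrd
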