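import Pool.Agent.Lib.MP_a94b90_nt.EX.Stmt

/-! EX: the rational conditions at the start of the new phase, and irreducibility. -/

namespace ExOrd
open Set

namespace StartR

theorem exists_rat (p q : ℤ) (hq : q ≠ 0) :
    ∃ ρ : ℚ, (ρ.den : ℝ) ≤ |(q : ℝ)| ∧ (ρ : ℝ) = p / q := by
  refine ⟨Rat.divInt p q, ?_, ?_⟩
  · have h1 : ((Rat.divInt p q).den : ℤ) ≤ |q| :=
      Int.le_of_dvd (abs_pos.2 hq) ((dvd_abs _ _).2 (Rat.den_dvd p q))
    exact_mod_cast h1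
  · rw [Rat.divInt_eq_div]
    push_cast
    rfl

theorem den_le {ρ : ℚ} {t : ℤ} (ht : t ≠ 0) (h : (ρ.den : ℤ) ∣ t) : (ρ.den : ℝ) ≤ |(t : ℝ)| := by
  have h1 : (ρ.den : ℤ) ≤ |t| := Int.le_of_dvd (abs_pos.2 ht) ((dvd_abs _ _).2 h)
  exact_mod_cast h1

theorem cop (ρ : ℚ) : IsCoprime (ρ.den : ℤ) ρ.num := by
  rw [Int.isCoprime_iff_gcd_eq_one, Int.gcd_comm]
  exact ρ.reduced

theorem den_mul (ρ : ℚ) : (ρ.den : ℝ) * (ρ : ℝ) = (ρ.num : ℝ) := by
  have h : (ρ.den : ℚ) * ρ = ρ.num := Rat.den_mul_eq_num ρ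
  exact_mod_cast h

theorem num_eq (a b c : ℤ) (ρ : ℚ) :
    ((a * ρ.num ^ 2 + b * ρ.num * ρ.den + c * (ρ.den : ℤ) ^ 2 : ℤ) : ℝ) =
      (ρ.den : ℝ) ^ 2 * Lv a b c ρ := by
  push_cast
  rw [← den_mul ρ]
  unfold Lv
  ring

theorem sq_le {u : ℝ} {a c : ℤ} (h0 : 0 ≤ u) (hu : u ≤ P a) (h : 2 * a ≤ c) : u ^ 2 ≤ P c := by
  have h1 : u ^ 2 ≤ P a ^ 2 := pow_le_pow_left₀ h0 hu 2
  rw [P_sq] at h1
  exact le_P h1 h

end StartR

open StartR

theorem startR : StartRStmt := by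
  intro r g s n0 n1 n r2 n2 x μ a b c W u hu ρ h1 h2
  obtain ⟨hr, hg, hs, hn, hb⟩ := W.par
  have e1 := W.e1
  have e2 := W.e2
  have e3 := le_of_P_le (W.m1.trans W.mu)
  have hd0 : (0 : ℝ) < ρ.den := by exact_mod_cast ρ.den_pos
  have hd1 : |(ρ.den : ℝ)| = ρ.den := abs_of_pos hd0
  by_contra hc
  have h3 := not_lt.1 hc
  by_cases c1 : (ρ.den : ℝ) ≤ P (n1 - r)
  · have h4 := W.good.2 ρ c1 (le_P h2 (by omega))
    have h5 := lt_of_P_lt (h4.trans_le h3)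
    omega
  have c1' : P (n1 - r) < ρ.den := not_le.1 c1
  have hden : P (n1 - r) ≤ |(ρ.den : ℝ)| := by rw [hd1]; exact c1'.le
  have h6 : |(ρ.den : ℝ) * ((ρ.den : ℝ) * ((ρ.den : ℝ) * (x - ρ)))| ≤ P (-3 * r2 - 2) := by
    rw [abs_mul, abs_mul, abs_mul, hd1]
    refine le_of_eq_of_le ?_ h2
    ring
  have h7 : |(ρ.den : ℝ) * ((ρ.den : ℝ) * (x - ρ))| ≤ P (-3 * r2 - 2 - (n1 - r)) :=
    div_le_P hden h6 le_rfl
  have h8 : |(ρ.den : ℝ) * (x - ρ)| ≤ P (-3 * r2 - 2 - 2 * (n1 - r)) :=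
    div_le_P hden h7 (by omega)
  have h9 : |x - ρ| ≤ P (-3 * n1) := div_le_P hden h8 (by omega)
  have c2 : ¬ (ρ.den : ℝ) ^ 2 ≤ P (3 * n1 - 14) := fun h => W.clean.2.1 ⟨ρ, h, h9⟩
  by_cases c3 : a * ρ.num ^ 2 + b * ρ.num * ρ.den + c * (ρ.den : ℤ) ^ 2 = 0
  · by_cases ha : a = 0
    · have hb0 : b ≠ 0 := by
        rintro rfl
        have h10 := W.vec.lo
        rw [ha] at h10
        simp only [Dv, Int.cast_zero, mul_zero, zero_mul, add_zero, abs_zero] at h10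
        exact absurd (P_pos _) (not_lt.2 h10)
      have hdz : (ρ.den : ℤ) ≠ 0 := by exact_mod_cast ρ.den_nz
      have h11 : b * ρ.num = ρ.den * (-c) := by
        apply mul_right_cancel₀ hdz
        rw [ha] at c3
        linear_combination c3
      have h12 : (ρ.den : ℤ) ∣ b := (cop ρ).dvd_of_dvd_mul_right ⟨-c, h11⟩
      exact c2 (sq_le hd0.le ((den_le hb0 h12).trans W.vec.hb) (by omega))
    · have h11 : a * ρ.num ^ 2 = ρ.den * (-(b * ρ.num) - c * ρ.den) := by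
        linear_combination c3
      have h12 : (ρ.den : ℤ) ∣ a := (cop ρ).pow_right.dvd_of_dvd_mul_right ⟨_, h11⟩
      have h13 := lt_of_P_lt (c1'.trans_le ((den_le ha h12).trans W.vec.ha))
      omega
  · apply c3
    refine int_zero (a := -1) ?_ (by norm_num)
    rw [num_eq]
    have h10 : (ρ.den : ℝ) ^ 2 * Lv a b c ρ = (ρ.den : ℝ) ^ 2 * Lv a b c x -
        (Dv a b x - a * (x - ρ)) * ((ρ.den : ℝ) * ((ρ.den : ℝ) * (x - ρ))) := by
      rw [Lv_taylor a b c x ρ]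
      ring
    rw [h10]
    have hL : |Lv a b c x| ≤ P (n + g + 7 - 3 * n2) := by
      have h11 := P_succ (n + g + 6 - 3 * n2)
      rw [show (n : ℤ) + g + 6 - 3 * n2 + 1 = n + g + 7 - 3 * n2 by ring] at h11
      have := W.hi
      have := W.m2
      linarith
    have hsq : |(ρ.den : ℝ) ^ 2| ≤ P (2 * ((n2 + u : ℕ) - r2)) := by
      rw [abs_of_nonneg (sq_nonneg _)]
      exact sq_le hd0.le h1 le_rfl
    have h12 : |(ρ.den : ℝ) ^ 2 * Lv a b c x| ≤ P (-2) := mul_le_P hsq hL (by omega)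
    have h13 : |(a : ℝ) * (x - ρ)| ≤ P (n + 1) := mul_le_P W.vec.ha h9 (by omega)
    have h14 : |Dv a b x - a * (x - ρ)| ≤ P (n + 2) :=
      sub_le_P W.vec.hi h13 (by omega) (by omega)
    have h15 := mul_le_P (c := -2) h14 h7 (by omega)
    exact sub_le_P h12 h15 (by norm_num) (by norm_num)

theorem irr : IrrStmt := by
  intro r g s n0 n1 n r2 n2 x μ a b c W hsq
  obtain ⟨hr, hg, hs, hn, hb⟩ := W.par
  have hL : |Lv a b c x| ≤ P (-2 * n - 19 * s) := by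
    have h11 := P_succ (-2 * n - 19 * s - 1)
    rw [sub_add_cancel] at h11
    have := W.hi
    have := W.mu
    linarith
  apply W.clean.2.1
  by_cases ha : a = 0
  · have hD : Dv a b x = b := by rw [ha]; simp [Dv]
    have hlo := W.vec.lo
    rw [hD] at hlo
    have hb0 : b ≠ 0 := by
      rintro rfl
      rw [Int.cast_zero, abs_zero] at hlo
      exact absurd (P_pos _) (not_lt.2 hlo)
    have hb1 : (b : ℝ) ≠ 0 := by exact_mod_cast hb0
    obtain ⟨ρ, h1, h2⟩ := exists_rat (-c) b hb0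
    refine ⟨ρ, sq_le (Nat.cast_nonneg _) (h1.trans W.vec.hb) (by omega), ?_⟩
    have h3 : Lv a b c x = b * (x - ρ) := by
      rw [h2, ha]
      unfold Lv
      push_cast
      field_simp
      ring
    rw [h3] at hL
    exact div_le_P hlo hL (by omega)
  · obtain ⟨k, hk, hk'⟩ : ∃ k : ℤ, b ^ 2 - 4 * a * c = k * k ∧ 0 ≤ Dv a b x * k := by
      obtain ⟨k, hk⟩ := hsq
      rcases le_total 0 (Dv a b x * k) with h | h
      · exact ⟨k, hk, h⟩
      · refine ⟨-k, by rw [hk]; ring, ?_⟩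
        push_cast
        linarith
    have ha1 : (a : ℝ) ≠ 0 := by exact_mod_cast ha
    have ha2 : 2 * a ≠ 0 := mul_ne_zero two_ne_zero ha
    obtain ⟨ρ, h1, h2⟩ := exists_rat (k - b) (2 * a) ha2
    have h3 : |((2 * a : ℤ) : ℝ)| ≤ P n := by
      push_cast
      exact two_mul_le_P W.vec.ha (by omega)
    refine ⟨ρ, sq_le (Nat.cast_nonneg _) (h1.trans h3) (by omega), ?_⟩
    have h4 := disc_eq a b c x
    rw [hk] at h4
    push_cast at h4 h2
    have h5 : 2 * a * (x - ρ) = Dv a b x - k := by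
      rw [h2]
      unfold Dv
      field_simp
      ring
    have h6 : (Dv a b x + k) * (x - ρ) = 2 * Lv a b c x := by
      apply mul_left_cancel₀ (mul_ne_zero (two_ne_zero (α := ℝ)) ha1)
      linear_combination (Dv a b x + k) * h5 - h4
    have h7 : |Dv a b x| ≤ |Dv a b x + k| := by
      rw [← sq_le_sq]
      nlinarith [sq_nonneg (k : ℝ)]
    have h8 : |(Dv a b x + k) * (x - ρ)| ≤ P (-2 * n - 19 * s + 1) := by
      rw [h6]
      exact two_mul_le_P hL (by omega)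
    exact div_le_P (W.vec.lo.trans h7) h8 (by omega)

end ExOrd
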