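import Pool.Agent.Lib.MP_a94b90_nt.EX.Stmt

/-! EX: one phase followed by one window. -/

namespace ExOrd
open Set

namespace Step

theorem record (φ : ℕ → ℝ) (C : ℝ) (M : ℕ) (hpos : ∀ H, M ≤ H → 0 < φ H)
    (hb : ∀ H, M ≤ H → φ H ≤ C) : ∃ H1, M ≤ H1 ∧ ∀ H, H1 ≤ H → φ H ≤ 2 * φ H1 := by
  have hne : (φ '' {H | M ≤ H}).Nonempty := ⟨φ M, M, le_refl M, rfl⟩
  have hbd : BddAbove (φ '' {H | M ≤ H}) := ⟨C, by rintro _ ⟨H, hH, rfl⟩; exact hb H hH⟩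
  have h0 : 0 < sSup (φ '' {H | M ≤ H}) :=
    (hpos M le_rfl).trans_le (le_csSup hbd ⟨M, le_refl M, rfl⟩)
  obtain ⟨_, ⟨H1, hH1, rfl⟩, h1⟩ := exists_lt_of_lt_csSup hne (half_lt_self h0)
  refine ⟨H1, hH1, fun H hH => ?_⟩
  have := le_csSup hbd ⟨H, le_trans hH1 hH, rfl⟩
  linarith

theorem psi_small {y : ℝ} {H : ℕ} {a b c : ℤ} (h1 : P a < 3 * (H : ℝ))
    (h2 : (H : ℝ) ^ 2 * y ≤ P b) (hc : b - 2 * a + 4 ≤ c) : y ≤ P c := by
  by_contra h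
  have h3 : P c < y := not_le.1 h
  have h4 : P (a - 2) ≤ H := by
    have := P_shift 2 (show a = a - 2 + (2 : ℕ) by push_cast; ring)
    have := P_pos (a - 2)
    linarith
  have h5 : P (2 * (a - 2)) ≤ (H : ℝ) ^ 2 := by
    rw [← P_sq]; exact pow_le_pow_left₀ (P_pos _).le h4 2
  have h6 : P (2 * (a - 2)) * P c < (H : ℝ) ^ 2 * y :=
    mul_lt_mul' h5 h3 (P_pos _).le ((P_pos _).trans_le h5)
  rw [← P_add] at h6
  have := lt_of_P_lt (h6.trans_le h2)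
  omega

theorem nat_le {N H : ℕ} {a : ℤ} (h1 : P a < 3 * (H : ℝ)) (h : (N : ℤ) + 2 ≤ a) : N ≤ H := by
  have h2 := P_le h
  rw [P_shift 2 (show (N : ℤ) + 2 = N + (2 : ℕ) by push_cast; ring)] at h2
  have h3 := nat_lt_P N
  have h4 : (N : ℝ) ≤ H := by nlinarith [Nat.cast_nonneg (α := ℝ) N]
  exact_mod_cast h4

end Step

open Step in
theorem step (hp : PhaseStmt) (hx : ExtraStmt) (hv : VecStmt) (hpair : PairStmt)
    (hsp : StartPStmt) (hsr : StartRStmt) (hi : IrrStmt) (he : ExtStmt) : StepStmt := by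
  intro ψ H0 r n0 i g K a0 hmono hpos hH0 st hg ⟨N, hN⟩
  have hr := st.hr
  obtain ⟨s, hs⟩ : ∃ s : ℕ, s = 200 * (r + g) := ⟨_, rfl⟩
  obtain ⟨B, hB⟩ : ∃ B : ℕ, B = 100 * s + 10 * n0 + 6 * r + 13 + N + K := ⟨_, rfl⟩
  have hM : B + 3 < 2 ^ (B + 3) := Nat.lt_two_pow_self
  obtain ⟨H1, hH1, hrec⟩ := record (fun H => (H : ℝ) ^ 2 * ψ H) (P (-4000 * (r + g)))
    (2 ^ (B + 3)) (fun H hH => mul_pos (by
      have : 0 < H := by omega
      positivity) (hpos H (by omega))) (fun H hH => hN H (by omega))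
  have hH1' : P ((B + 3 : ℕ) : ℤ) ≤ H1 := by rw [P_nat]; exact_mod_cast hH1
  obtain ⟨k, hk1, hk2⟩ := exists_shell ((P_pos _).trans_le hH1')
  have hk3 := lt_of_P_lt (hH1'.trans_lt hk2)
  obtain ⟨n1, hn1⟩ : ∃ n1 : ℕ, k = n1 + 4 * r + 11 := ⟨(k - 4 * r - 11).toNat, by omega⟩
  obtain ⟨n, hn⟩ : ∃ n : ℕ, n = n1 + 4 * r + 9 := ⟨_, rfl⟩
  have par : Par r g s n0 n1 n := ⟨hr, hg, by omega, hn, by omega⟩
  have hsm : ∀ H : ℕ, P (n - 6 * r - 11) < 3 * (H : ℝ) → (H : ℝ) ^ 2 * ψ H ≤ P (-20 * s) :=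
    fun H hH => le_P (hN H (nat_le hH (by omega))) (by omega)
  obtain ⟨i1, hsub1, h1⟩ := hp r n0 i n1 _ hr (by omega) st.start (hx r g s n0 n1 n a0 par)
  have hsub01 : Node n1 i1 ⊆ Icc 0 1 := hsub1.trans st.sub
  obtain ⟨a, b, c, n2, i2, hsub2, v1, v2, v3, v4, v5, v6⟩ := hv ψ r g s n0 n1 n i1 par
    (fun x hx => (h1 x hx).1 n1 (by omega) le_rfl) hsub01 hpos hsm
  have hn2 := le_of_P_le (v4.trans v3)
  obtain ⟨r2, e1, e2⟩ : ∃ r2 : ℕ, n + g + 1 + (2 * r2 + 2) ≤ n2 ∧ n2 ≤ n + g + 2 + (2 * r2 + 2) :=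
    ⟨(n2 - n - g - 3) / 2, by omega, by omega⟩
  have hH : 1 ≤ Ht a b c := nat_le v1 (by omega)
  have hμ := hpos _ hH
  have win : ∀ x ∈ Node n2 i2, Win r g s n0 n1 n r2 n2 x (ψ (Ht a b c)) a b c := by
    intro x hx
    obtain ⟨w1, w2⟩ := h1 x (hsub2 hx)
    obtain ⟨w3, w4, w5⟩ := v6 x hx
    have w6 : P (-(g : ℤ)) ≤ 1 := P_le_one (by omega)
    exact ⟨par, w1 n1 (by omega) le_rfl, by tauto, w3, w4,
      w5.trans (mul_le_mul_of_nonneg_right (by linarith) hμ.le), v3, v4, v5, e1, e2⟩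
  refine ⟨r2, n2, i2, ⟨by omega, hsub2.trans hsub01, fun x hx =>
    ⟨hsp _ _ _ _ _ _ _ _ _ _ _ _ _ (win x hx), hsr _ _ _ _ _ _ _ _ _ _ _ _ _ (win x hx)⟩, ?_, ?_⟩,
    hsub2.trans hsub1, fun h => (h1 a0 (hsub2 h)).2 (Or.inr rfl), by omega, a, b, c,
    nat_le v1 (by omega), hi _ _ _ _ _ _ _ _ _ _ _ _ _ (win _ (node_left _ _)),
    fun x hx => (v6 x hx).2.2⟩
  · intro x hx a' b' c' hlo hhi
    have W := win x hx
    by_cases hc : 3 * (Ht a' b' c' : ℝ) ≤ P (n1 - (2 * r + 2))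
    · exact he ψ H0 r n0 i n1 x a' b' c' hH0 st (hsub1 (hsub2 hx)) (h1 x (hsub2 hx)).1 hlo hc
    by_contra hlt
    have hlt' := not_le.1 hlt
    have hc' : P (n - 6 * r - 11) < 3 * (Ht a' b' c' : ℝ) :=
      (P_le (by omega)).trans_lt (not_le.1 hc)
    have hs1 : ψ (Ht a' b' c') ≤ P (-2 * n - 19 * s) := psi_small hc' (hsm _ hc') (by omega)
    have hs2 : |Lv a b c x| ≤ P (-2 * n - 19 * s) := by
      have := P_succ (-2 * n - 19 * s - 1)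
      rw [sub_add_cancel] at this
      linarith [W.hi, W.mu]
    have hs3 : 3 * (Ht a' b' c' : ℝ) ≤ P (n + s) := le_P hhi (by omega)
    obtain ⟨t, rfl, rfl, rfl⟩ := hpair r g s n0 n1 n x a b c a' b' c' par W.good W.clean.1 W.vec hs2
      ⟨hlt'.le.trans hs1, (Dv_le_Ht a' b' c' (hsub01 (hsub2 hx))).trans hs3, by
        linarith [abs_a_le_Ht a' b' c', Nat.cast_nonneg (α := ℝ) (Ht a' b' c')]⟩
    rw [Ht_mul] at hlo hlt'
    have ht : 1 ≤ t.natAbs := by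
      rcases Nat.eq_zero_or_pos t.natAbs with h | h
      · rw [h] at hlo; omega
      · exact h
    have ht' : (1 : ℝ) ≤ |(t : ℝ)| := by
      have : (1 : ℤ) ≤ |t| := by rw [Int.abs_eq_natAbs]; exact_mod_cast ht
      exact_mod_cast this
    have h2 := hmono (Ht a b c) (t.natAbs * Ht a b c) hH (Nat.le_mul_of_pos_left _ ht)
    rw [Lv_mul, abs_mul] at hlt'
    have h3 := le_mul_of_one_le_left (abs_nonneg (Lv a b c x)) ht'
    linarith [W.lo]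
  · intro H _ hH2
    have h2 : (H1 : ℝ) ≤ H := by
      have h3 : P (k + 1 + (2 : ℕ)) ≤ P (n2 - (2 * r2 + 2)) := P_le (by push_cast; omega)
      rw [P_shift 2 rfl] at h3
      linarith [P_pos (k + 1)]
    have h3 := hrec H (by exact_mod_cast h2)
    have h4 : ψ H1 ≤ ψ (Ht a b c) := by
      refine hmono _ _ hH ?_
      have : (Ht a b c : ℝ) ≤ H1 := v2.trans ((P_le (by omega)).trans hk1)
      exact_mod_cast this
    have h5 : (H1 : ℝ) ^ 2 ≤ P (2 * (k + 1)) := by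
      rw [← P_sq]; exact pow_le_pow_left₀ (Nat.cast_nonneg _) hk2.le 2
    have h6 : (H1 : ℝ) ^ 2 * ψ H1 ≤ P (2 * (k + 1)) * P (n + g + 6 - 3 * n2) :=
      mul_le_mul h5 (h4.trans v5.le) (hpos H1 (by omega)).le (P_pos _).le
    rw [← P_add] at h6
    have h7 : P (2 * (k + 1) + (n + g + 6 - 3 * n2) + (7 : ℕ)) ≤ P (-3 * (2 * r2 + 2)) :=
      P_le (by push_cast; omega)
    rw [P_shift 7 rfl] at h7
    have := P_pos (2 * (k + 1) + (n + g + 6 - 3 * n2))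
    linarith

end ExOrd
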