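import Pool.Agent.Lib.MP_a94b90_nt.EX.Z
import Pool.Agent.Lib.MP_a94b90_nt.EX.Cnt
import Pool.Agent.Lib.MP_a94b90_nt.EX.Kill
import Pool.Agent.Lib.MP_a94b90_nt.EX.Rat
import Pool.Agent.Lib.MP_a94b90_nt.EX.Dual
import Pool.Agent.Lib.MP_a94b90_nt.EX.Light
import Pool.Agent.Lib.MP_a94b90_nt.EX.Phase
import Pool.Agent.Lib.MP_a94b90_nt.EX.Main
import Pool.Agent.Lib.MP_a94b90_nt.EX.Extra
import Pool.Agent.Lib.MP_a94b90_nt.EX.ResetP
import Pool.Agent.Lib.MP_a94b90_nt.EX.ResetR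
import Pool.Agent.Lib.MP_a94b90_nt.EX.Pair
import Pool.Agent.Lib.MP_a94b90_nt.EX.Dir
import Pool.Agent.Lib.MP_a94b90_nt.EX.Vec
import Pool.Agent.Lib.MP_a94b90_nt.EX.StartP
import Pool.Agent.Lib.MP_a94b90_nt.EX.StartR
import Pool.Agent.Lib.MP_a94b90_nt.EX.Down
import Pool.Agent.Lib.MP_a94b90_nt.EX.Step
import Pool.Agent.Lib.MP_a94b90_nt.EX.Final

/-! EX: assembly. -/

namespace ExOrd

theorem phaseT : PhaseStmt := phase lor (main (kill z cnt) rat lfew lor lsum)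

theorem stepT : StepStmt :=
  step phaseT (extra (kill z cnt) rat lfew lor lsum (dual z)) (vec z dir) (pair z)
    (startP (pair z)) startR irr (ext z)

theorem downT : DownStmt :=
  down z phaseT lor (resetP (kill z cnt) lfew lsum) (resetR rat lfew lsum)

theorem mainThm : MainThm := final stepT downT

/-- an uncountable set stays uncountable after removing the algebraic numbers. -/
theorem trans_unc {S T : Set ℝ} (hS : ¬ S.Countable)
    (h : ∀ ξ ∈ S, Transcendental ℚ ξ → ξ ∈ T) : ¬ T.Countable := by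
  intro hT
  refine hS ((hT.union (Algebraic.countable ℚ ℝ)).mono fun ξ hξ => ?_)
  by_cases ha : IsAlgebraic ℚ ξ
  · exact Or.inr ha
  · exact Or.inl (h ξ hξ ha)

theorem Lv_eq (x y z : ℤ) (ξ : ℝ) : Lv z y x ξ = x + ξ * y + ξ ^ 2 * z := by
  unfold Lv; ring

theorem P_neg (k : ℕ) : P (-(k : ℤ)) = 1 / 2 ^ k := by
  unfold P; rw [zpow_neg, zpow_natCast, one_div]

end ExOrd
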