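import Mathlib

/-! EX: exact approximation order by quadratic polynomials. Definitions and basic lemmas. -/

namespace ExOrd
open Set

/-- the power `2^k`. -/
noncomputable def P (k : ℤ) : ℝ := (2 : ℝ) ^ k

/-- value of the form `a x^2 + b x + c`. -/
def Lv (a b c : ℤ) (x : ℝ) : ℝ := a * x ^ 2 + b * x + c

/-- its derivative. -/
def Dv (a b : ℤ) (x : ℝ) : ℝ := 2 * a * x + b

/-- height. -/
def Ht (a b c : ℤ) : ℕ := max c.natAbs (max b.natAbs a.natAbs)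

/-- general box at the point `x`. -/
def Bx (α β γ : ℤ) (x : ℝ) (a b c : ℤ) : Prop :=
  |Lv a b c x| ≤ P α ∧ |Dv a b x| ≤ P β ∧ |(a : ℝ)| ≤ P γ

/-- the box of level `j` and class `l`, with `e = 2r+2`. -/
def Box (r j l : ℕ) (x : ℝ) (a b c : ℤ) : Prop :=
  Bx (-(2 * r + 2) - 2 * j - 2 * l) (j - (2 * r + 2) - 2 * l) (j - (2 * r + 2) + l) x a b c

def PP (r j : ℕ) (x : ℝ) : Prop :=
  ∀ (l : ℕ) (a b c : ℤ), Box r j l x a b c → b ^ 2 = 4 * a * c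

def RR (r j : ℕ) (x : ℝ) : Prop :=
  ∀ ρ : ℚ, (ρ.den : ℝ) ≤ P (j - r) → (ρ.den : ℝ) ^ 3 * |x - ρ| ≤ P (-3 * r - 2) →
    P (-r - 1 - j) < (ρ.den : ℝ) * |x - ρ|

def Good (r j : ℕ) (x : ℝ) : Prop := PP r j x ∧ RR r j x

def kk (l : ℕ) : ℕ := 40 + l / 8

def StartAt (r n : ℕ) (x : ℝ) : Prop :=
  (∀ (u l : ℕ) (a b c : ℤ), u ≤ kk l → Box r (n + u) l x a b c → b ^ 2 = 4 * a * c) ∧
    ∀ u : ℕ, u ≤ 4 → RR r (n + u) x

/-- node `i` of level `j`: the interval `[i, i+1] / 8^j`. -/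
def Node (j i : ℕ) : Set ℝ := Icc ((i : ℝ) * P (-3 * j)) (((i : ℝ) + 1) * P (-3 * j))

/-- inside a good node of level `m`, at most `N` nodes of level `j` meet the event `E`. -/
def Few (r m j : ℕ) (E : ℝ → Prop) (N : ℝ) : Prop :=
  ∀ A : ℕ, (∀ x ∈ Node m A, Good r m x) → ∀ T : Finset ℕ,
    (∀ i ∈ T, ∃ x, x ∈ Node m A ∧ x ∈ Node j i ∧ E x) → (T.card : ℝ) ≤ N

/-- the event `E` has weight at most `w` at level `j` for trees rooted at level `n`. -/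
def Light (r n j : ℕ) (E : ℝ → Prop) (w : ℝ) : Prop :=
  ∀ S : ℕ → Finset ℕ, (∀ m, n ≤ m → m < j → ∀ A ∈ S m, ∀ x ∈ Node m A, Good r m x) →
    (∀ m, n ≤ m → m + 1 < j → 7 * (S m).card ≤ (S (m + 1)).card) →
    ∀ T : Finset ℕ,
      (∀ i ∈ T, (∀ m, n ≤ m → m < j → i / 8 ^ (j - m) ∈ S m) ∧ ∃ x ∈ Node j i, E x) →
      (T.card : ℝ) ≤ w * (S (j - 1)).card

def EvK (α β γ B : ℤ) (x : ℝ) : Prop :=
  ∃ a b c : ℤ, Bx α β γ x a b c ∧ P B < |Dv a b x|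

def EvQ (G κ : ℤ) (x : ℝ) : Prop :=
  ∃ ρ : ℚ, (ρ.den : ℝ) ^ 2 ≤ P G ∧ |x - ρ| ≤ P κ

def EvA (s n : ℕ) (x : ℝ) : Prop :=
  ∃ p q t : ℤ, P (2 * n - 10 * s) ≤ |(p : ℝ)| ∧ |(p : ℝ)| ≤ P (2 * n + 2 * s + 1) ∧
    |(p : ℝ) * x - q| ≤ P (-n - 18 * s + 1) ∧
    |(p : ℝ) * x ^ 2 - 2 * q * x + t| ≤ P (-n - 18 * s + 1)

def EvB (g s n l : ℕ) (x : ℝ) : Prop :=
  EvK (-2 * n - 2 * l - 19 * s) (n + g + 2 + kk l - 2 * l) (n + g + 2 + kk l + l)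
    (n - 2 * l - s) x

def Clean (g s n1 n : ℕ) (x : ℝ) : Prop :=
  ¬ EvA s n x ∧ ¬ EvQ (3 * n1 - 14) (-3 * n1) x ∧
    ∀ l : ℕ, s < 2 * l → 2 * l ≤ n + g + 2 + kk l → ¬ EvB g s n l x

structure Par (r g s n0 n1 n : ℕ) : Prop where
  hr : 100 ≤ r
  hg : 8 ≤ g
  hs : 200 * (r + g) ≤ s
  hn : n = n1 + 4 * r + 9
  hb : 100 * s + 10 * n0 ≤ n

structure Vec (r n : ℕ) (x : ℝ) (a b c : ℤ) : Prop where
  prim : ∀ t : ℤ, t ∣ a → t ∣ b → t ∣ c → IsUnit t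
  ha : |(a : ℝ)| ≤ P (n - 6 * r - 11)
  hb : |(b : ℝ)| ≤ P n
  lo : P (n - 6 * r - 12) ≤ |Dv a b x|
  hi : |Dv a b x| ≤ P (n + 1)

/-- data at a point `x` of the window. -/
structure Win (r g s n0 n1 n r2 n2 : ℕ) (x μ : ℝ) (a b c : ℤ) : Prop where
  par : Par r g s n0 n1 n
  good : Good r n1 x
  clean : Clean g s n1 n x
  vec : Vec r n x a b c
  lo : μ ≤ |Lv a b c x|
  hi : |Lv a b c x| ≤ 2 * μ
  mu : μ ≤ P (-2 * n - 19 * s - 1)
  m1 : P (n + g + 3 - 3 * n2) ≤ μ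
  m2 : μ < P (n + g + 6 - 3 * n2)
  e1 : n + g + 1 + (2 * r2 + 2) ≤ n2
  e2 : n2 ≤ n + g + 2 + (2 * r2 + 2)

structure State (ψ : ℕ → ℝ) (H0 r n i : ℕ) : Prop where
  hr : 100 ≤ r
  sub : Node n i ⊆ Icc 0 1
  start : ∀ x ∈ Node n i, StartAt r n x
  low : ∀ x ∈ Node n i, ∀ a b c : ℤ, H0 ≤ Ht a b c →
    3 * (Ht a b c : ℝ) ≤ P (n - (2 * r + 2)) → ψ (Ht a b c) ≤ |Lv a b c x|
  top : ∀ H : ℕ, H0 ≤ H → P (n - (2 * r + 2)) < 3 * (H : ℝ) →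
    36 * ((H : ℝ) ^ 2 * ψ H) ≤ P (-3 * (2 * r + 2))

/-! ### powers of two -/

theorem P_pos (k : ℤ) : 0 < P k := zpow_pos (by norm_num) k

theorem P_add (a b : ℤ) : P (a + b) = P a * P b := zpow_add₀ (by norm_num) a b

theorem P_mul {a b c : ℤ} (h : a + b = c) : P a * P b = P c := by rw [← h, P_add]

theorem P_zero : P 0 = 1 := zpow_zero _

theorem P_one : P 1 = 2 := zpow_one _

theorem P_nat (n : ℕ) : P n = (2 : ℝ) ^ n := zpow_natCast _ _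

theorem P_le {a b : ℤ} (h : a ≤ b) : P a ≤ P b := zpow_le_zpow_right₀ (by norm_num) h

theorem P_lt {a b : ℤ} (h : a < b) : P a < P b := zpow_lt_zpow_right₀ (by norm_num) h

theorem lt_of_P_lt {a b : ℤ} (h : P a < P b) : a < b := by
  by_contra h'
  exact absurd (P_le (not_lt.1 h')) (not_le.2 h)

theorem le_of_P_le {a b : ℤ} (h : P a ≤ P b) : a ≤ b := by
  by_contra h'
  exact absurd (P_lt (not_le.1 h')) (not_lt.2 h)

/-- `P c = 2^k * P a` when `c = a + k`; use as `P_shift 3 (by omega) : P c = 2^3 * P a`. -/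
theorem P_shift (k : ℕ) {a c : ℤ} (h : c = a + k) : P c = 2 ^ k * P a := by
  rw [h, P_add, P_nat, mul_comm]

theorem P_succ (a : ℤ) : P (a + 1) = 2 * P a := by rw [P_add, P_one, mul_comm]

theorem P_add_le {a b c : ℤ} (ha : a < c) (hb : b < c) : P a + P b ≤ P c := by
  have h1 : P a ≤ P (c - 1) := P_le (by omega)
  have h2 : P b ≤ P (c - 1) := P_le (by omega)
  have h3 := P_succ (c - 1)
  rw [sub_add_cancel] at h3
  linarith

theorem P_sq (a : ℤ) : P a ^ 2 = P (2 * a) := by rw [sq]; exact P_mul (by ring)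

theorem P_cube (a : ℤ) : P a ^ 3 = P (3 * a) := by
  rw [pow_succ, P_sq]; exact P_mul (by ring)

theorem P_le_one {a : ℤ} (h : a ≤ 0) : P a ≤ 1 := P_zero ▸ P_le h

theorem P_lt_one {a : ℤ} (h : a < 0) : P a < 1 := P_zero ▸ P_lt h

theorem one_le_P {a : ℤ} (h : 0 ≤ a) : 1 ≤ P a := P_zero ▸ P_le h

theorem nat_lt_P (n : ℕ) : (n : ℝ) < P n := by
  rw [P_nat]; exact_mod_cast Nat.lt_two_pow_self

theorem le_P {u : ℝ} {a c : ℤ} (hu : u ≤ P a) (h : a ≤ c) : u ≤ P c := hu.trans (P_le h)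

theorem mul_le_P {u v : ℝ} {a b c : ℤ} (hu : |u| ≤ P a) (hv : |v| ≤ P b) (h : a + b ≤ c) :
    |u * v| ≤ P c := by
  rw [abs_mul]
  exact (mul_le_mul hu hv (abs_nonneg _) (P_pos _).le).trans (by rw [← P_add]; exact P_le h)

theorem add_le_P {u v : ℝ} {a b c : ℤ} (hu : |u| ≤ P a) (hv : |v| ≤ P b) (ha : a < c)
    (hb : b < c) : |u + v| ≤ P c :=
  (abs_add_le _ _).trans ((add_le_add hu hv).trans (P_add_le ha hb))

theorem sub_le_P {u v : ℝ} {a b c : ℤ} (hu : |u| ≤ P a) (hv : |v| ≤ P b) (ha : a < c)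
    (hb : b < c) : |u - v| ≤ P c := by
  rw [sub_eq_add_neg]
  exact add_le_P hu (by rwa [abs_neg]) ha hb

theorem two_mul_le_P {u : ℝ} {a c : ℤ} (hu : |u| ≤ P a) (h : a < c) : |2 * u| ≤ P c := by
  rw [two_mul]; exact add_le_P hu hu h h

/-- division: from `P b ≤ |d|` and `|d * u| ≤ P a` get `|u| ≤ P (a - b)`. -/
theorem div_le_P {d u : ℝ} {a b c : ℤ} (hd : P b ≤ |d|) (h : |d * u| ≤ P a) (hc : a - b ≤ c) :
    |u| ≤ P c := by
  have h1 : P b * |u| ≤ P b * P c := by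
    rw [abs_mul] at h
    calc P b * |u| ≤ |d| * |u| := mul_le_mul_of_nonneg_right hd (abs_nonneg _)
      _ ≤ P a := h
      _ ≤ P (b + c) := P_le (by omega)
      _ = P b * P c := P_add _ _
  exact le_of_mul_le_mul_left h1 (P_pos _)

/-- an integer of absolute value below one is zero. -/
theorem int_zero {t : ℤ} {a : ℤ} (h : |(t : ℝ)| ≤ P a) (ha : a < 0) : t = 0 := by
  have h1 : |(t : ℝ)| < 1 := h.trans_lt (P_lt_one ha)
  have h2 : |t| < 1 := by exact_mod_cast h1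
  exact Int.abs_lt_one_iff.1 h2

/-- every positive real lies in a dyadic shell. -/
theorem exists_shell {u : ℝ} (hu : 0 < u) : ∃ k : ℤ, P k ≤ u ∧ u < P (k + 1) := by
  obtain ⟨k, h1, h2⟩ := exists_mem_Ico_zpow hu (show (1 : ℝ) < 2 by norm_num)
  exact ⟨k, h1, h2⟩

/-! ### forms -/

theorem Lv_taylor (a b c : ℤ) (x y : ℝ) :
    Lv a b c y = Lv a b c x + Dv a b x * (y - x) + a * (y - x) * (y - x) := by
  unfold Lv Dv; ring

theorem Dv_taylor (a b : ℤ) (x y : ℝ) : Dv a b y = Dv a b x + 2 * (a * (y - x)) := by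
  unfold Dv; ring

theorem Lv_sub (a b c : ℤ) (x y : ℝ) :
    Lv a b c y - Lv a b c x = (Dv a b x + a * (y - x)) * (y - x) := by
  unfold Lv Dv; ring

theorem disc_eq (a b c : ℤ) (x : ℝ) :
    ((b ^ 2 - 4 * a * c : ℤ) : ℝ) = Dv a b x ^ 2 - 4 * (a * Lv a b c x) := by
  unfold Lv Dv; push_cast; ring

theorem Bx.mono {α β γ α' β' γ' : ℤ} {x : ℝ} {a b c : ℤ} (h : Bx α β γ x a b c)
    (h1 : α ≤ α') (h2 : β ≤ β') (h3 : γ ≤ γ') : Bx α' β' γ' x a b c :=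
  ⟨le_P h.1 h1, le_P h.2.1 h2, le_P h.2.2 h3⟩

theorem abs_a_le_Ht (a b c : ℤ) : |(a : ℝ)| ≤ Ht a b c := by
  have : a.natAbs ≤ Ht a b c := (le_max_right _ _).trans (le_max_right _ _)
  rw [← Int.cast_abs, ← Nat.cast_natAbs]; exact_mod_cast this

theorem abs_b_le_Ht (a b c : ℤ) : |(b : ℝ)| ≤ Ht a b c := by
  have : b.natAbs ≤ Ht a b c := (le_max_left _ _).trans (le_max_right _ _)
  rw [← Int.cast_abs, ← Nat.cast_natAbs]; exact_mod_cast this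

theorem abs_c_le_Ht (a b c : ℤ) : |(c : ℝ)| ≤ Ht a b c := by
  have : c.natAbs ≤ Ht a b c := le_max_left _ _
  rw [← Int.cast_abs, ← Nat.cast_natAbs]; exact_mod_cast this

theorem Ht_le {a b c : ℤ} {M : ℝ} (ha : |(a : ℝ)| ≤ M) (hb : |(b : ℝ)| ≤ M)
    (hc : |(c : ℝ)| ≤ M) : (Ht a b c : ℝ) ≤ M := by
  unfold Ht
  push_cast [Nat.cast_max, Nat.cast_natAbs]
  exact max_le hc (max_le hb ha)

theorem Dv_le_Ht (a b c : ℤ) {x : ℝ} (hx : x ∈ Icc (0 : ℝ) 1) :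
    |Dv a b x| ≤ 3 * (Ht a b c : ℝ) := by
  have h1 := abs_a_le_Ht a b c
  have h2 := abs_b_le_Ht a b c
  have h3 : |2 * (a : ℝ) * x| ≤ 2 * |(a : ℝ)| := by
    rw [abs_mul, abs_mul, abs_two, abs_of_nonneg hx.1]
    nlinarith [abs_nonneg (a : ℝ), hx.1, hx.2]
  have := abs_add_le (2 * (a : ℝ) * x) b
  unfold Dv; linarith

theorem Ht_eq_zero {a b c : ℤ} : Ht a b c = 0 ↔ a = 0 ∧ b = 0 ∧ c = 0 := by
  unfold Ht; omega

theorem Ht_mul (t a b c : ℤ) : Ht (t * a) (t * b) (t * c) = t.natAbs * Ht a b c := by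
  unfold Ht
  simp only [Int.natAbs_mul, mul_max]

theorem Lv_mul (t a b c : ℤ) (x : ℝ) : Lv (t * a) (t * b) (t * c) x = t * Lv a b c x := by
  unfold Lv; push_cast; ring

/-- a form with nonzero discriminant and `|a| |L|` small has `|D| > 1/2`. -/
theorem rg {α β γ : ℤ} {x : ℝ} {a b c : ℤ} (h : Bx α β γ x a b c) (hs : α + γ ≤ -4)
    (hd : b ^ 2 ≠ 4 * a * c) : P (-1) < |Dv a b x| := by
  have h1 : |(a : ℝ) * Lv a b c x| ≤ P (-4) := mul_le_P h.2.2 h.1 (by omega)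
  have h2 : (1 : ℝ) ≤ |((b ^ 2 - 4 * a * c : ℤ) : ℝ)| := by
    have : (1 : ℤ) ≤ |b ^ 2 - 4 * a * c| := Int.one_le_abs (sub_ne_zero.2 hd)
    exact_mod_cast this
  rw [disc_eq a b c x] at h2
  have h4 : P (-4) = 1 / 16 := by unfold P; norm_num
  have h5 : P (-1) = 1 / 2 := by unfold P; norm_num
  rw [h4] at h1
  rw [h5]
  by_contra hc
  have h6 : |Dv a b x| ≤ 1 / 2 := not_lt.1 hc
  have h7 : Dv a b x ^ 2 ≤ 1 / 4 := by
    rw [← sq_abs]; nlinarith [abs_nonneg (Dv a b x)]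
  have h8 := abs_le.1 h1
  have h9 : |Dv a b x ^ 2 - 4 * (a * Lv a b c x)| ≤ 1 / 2 := by
    rw [abs_le]; constructor <;> nlinarith [sq_nonneg (Dv a b x)]
  linarith

theorem rg_box {r j l : ℕ} {x : ℝ} {a b c : ℤ} (h : Box r j l x a b c)
    (hd : b ^ 2 ≠ 4 * a * c) : 2 * l + (2 * r + 2) ≤ j := by
  have h1 := rg h (by omega) hd
  have h2 := lt_of_P_lt (h1.trans_le h.2.1)
  omega

/-- a form of level `j+1`, class `l`, with small derivative has level `j`, class `l+1`. -/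
theorem up_box {r j l : ℕ} {x : ℝ} {a b c : ℤ} (h : Box r (j + 1) l x a b c)
    (hD : |Dv a b x| ≤ P ((j + 1 : ℕ) - (2 * r + 2) - 2 * l - 3)) : Box r j (l + 1) x a b c :=
  ⟨le_P h.1 (by omega), le_P hD (by omega), le_P h.2.2 (by omega)⟩

theorem StartAt.good {r n : ℕ} {x : ℝ} (h : StartAt r n x) : Good r n x :=
  ⟨fun l a b c hb => h.1 0 l a b c (Nat.zero_le _) hb, h.2 0 (Nat.zero_le _)⟩

/-! ### nodes -/

theorem node_dist {j i : ℕ} {x y : ℝ} (hx : x ∈ Node j i) (hy : y ∈ Node j i) :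
    |x - y| ≤ P (-3 * j) := by
  obtain ⟨h1, h2⟩ := hx
  obtain ⟨h3, h4⟩ := hy
  rw [abs_le]; constructor <;> linarith

theorem node_left (j i : ℕ) : (i : ℝ) * P (-3 * j) ∈ Node j i :=
  ⟨le_rfl, by nlinarith [P_pos (-3 * j)]⟩

theorem node_sub (m d i : ℕ) : Node (m + d) i ⊆ Node m (i / 8 ^ d) := by
  have hP : P (-3 * m) = 8 ^ d * P (-3 * (m + d : ℕ)) := by
    rw [P_shift (3 * d) (show (-3 * m : ℤ) = -3 * (m + d : ℕ) + (3 * d : ℕ) by push_cast; ring),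
      pow_mul]
    norm_num
  have hp := P_pos (-3 * (m + d : ℕ))
  have h1 : ((i / 8 ^ d : ℕ) : ℝ) * 8 ^ d ≤ i := by
    exact_mod_cast Nat.div_mul_le_self i (8 ^ d)
  have h2 : (i : ℝ) + 1 ≤ (((i / 8 ^ d : ℕ) : ℝ) + 1) * 8 ^ d := by
    have := Nat.lt_div_mul_add (a := i) (show 0 < 8 ^ d by positivity)
    have h3 : i + 1 ≤ (i / 8 ^ d + 1) * 8 ^ d := by nlinarith
    exact_mod_cast h3
  rintro x ⟨h3, h4⟩
  refine ⟨?_, ?_⟩ <;> rw [hP] <;> nlinarith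

theorem exists_node (j : ℕ) {x : ℝ} (hx : 0 ≤ x) : ∃ i, x ∈ Node j i := by
  have hp := P_pos (-3 * j)
  refine ⟨⌊x / P (-3 * j)⌋₊, ?_, ?_⟩
  · exact (le_div_iff₀ hp).1 (Nat.floor_le (div_nonneg hx hp.le))
  · exact ((div_lt_iff₀ hp).1 (Nat.lt_floor_add_one _)).le

theorem node_zero : Node 0 0 = Icc 0 1 := by
  simp [Node, P_zero]

/-- an event of diameter at most `2^ρ / 8^j` meets at most `2^ρ + 2` nodes of level `j`. -/
theorem diam {j ρ : ℕ} {E : ℝ → Prop} (hE : ∀ x y, E x → E y → |x - y| ≤ P (ρ - 3 * j))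
    (T : Finset ℕ) (hT : ∀ i ∈ T, ∃ x ∈ Node j i, E x) : T.card ≤ 2 ^ ρ + 2 := by
  rcases T.eq_empty_or_nonempty with h | h
  · simp [h]
  have hp := P_pos (-3 * j)
  have hP : P (ρ - 3 * j) = 2 ^ ρ * P (-3 * j) := P_shift ρ (by ring)
  have hsub : T ⊆ Finset.Icc (T.min' h) (T.min' h + 2 ^ ρ + 1) := by
    intro i hi
    refine Finset.mem_Icc.2 ⟨T.min'_le i hi, ?_⟩
    obtain ⟨x, hx, ex⟩ := hT i hi
    obtain ⟨y, hy, ey⟩ := hT _ (T.min'_mem h)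
    have h1 := (abs_le.1 (hE x y ex ey)).2
    rw [hP] at h1
    have h2 : (i : ℝ) * P (-3 * j) ≤ ((T.min' h : ℕ) + 2 ^ ρ + 1) * P (-3 * j) := by
      have := hx.1
      have := hy.2
      nlinarith
    have h3 := le_of_mul_le_mul_right h2 hp
    exact_mod_cast h3
  have := Finset.card_le_card hsub
  rw [Nat.card_Icc] at this
  generalize 2 ^ ρ = N at this ⊢
  omega

theorem diam_P {j ρ : ℕ} {E : ℝ → Prop} (hE : ∀ x y, E x → E y → |x - y| ≤ P (ρ - 3 * j))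
    (T : Finset ℕ) (hT : ∀ i ∈ T, ∃ x ∈ Node j i, E x) : (T.card : ℝ) ≤ P (ρ + 2) := by
  have h1 : (T.card : ℝ) ≤ 2 ^ ρ + 2 := by exact_mod_cast diam hE T hT
  have h2 : P (ρ + 2) = 2 ^ 2 * P ρ := P_shift 2 (by push_cast; ring)
  have h3 : (1 : ℝ) ≤ 2 ^ ρ := one_le_pow₀ (by norm_num)
  rw [h2, P_nat]; linarith

theorem light_mono {r n j : ℕ} {E E' : ℝ → Prop} {w w' : ℝ} (h : Light r n j E' w')
    (hE : ∀ x, E x → E' x) (hw : w' ≤ w) : Light r n j E w := by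
  intro S h1 h2 T hT
  refine (h S h1 h2 T fun i hi => ⟨(hT i hi).1, ?_⟩).trans
    (mul_le_mul_of_nonneg_right hw (Nat.cast_nonneg _))
  obtain ⟨x, hx, ex⟩ := (hT i hi).2
  exact ⟨x, hx, hE x ex⟩

theorem light_empty {r n j : ℕ} {E : ℝ → Prop} {w : ℝ} (hE : ∀ x, ¬ E x) (hw : 0 ≤ w) :
    Light r n j E w := by
  intro S _ _ T hT
  have : T = ∅ := Finset.eq_empty_of_forall_notMem fun i hi => by
    obtain ⟨x, _, ex⟩ := (hT i hi).2
    exact hE x ex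
  rw [this, Finset.card_empty, Nat.cast_zero]
  exact mul_nonneg hw (Nat.cast_nonneg _)

theorem P_neg_one : P (-1) = 1 / 2 := by unfold P; norm_num

theorem P_neg_two : P (-2) = 1 / 4 := by unfold P; norm_num

end ExOrd
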