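import Pool.Agent.Lib.MP_a94b90_nt.EX.All

namespace ExOrd.ExactOrderVariant
open ExOrd

theorem exactOrder (ψ : ℕ → ℝ)
    (hmono : ∀ H H' : ℕ, 1 ≤ H → H ≤ H' → ψ H' ≤ ψ H) (hpos : ∀ H : ℕ, 1 ≤ H → 0 < ψ H)
    (hlim : Filter.Tendsto (fun H : ℕ => (H : ℝ) ^ 2 * ψ H) Filter.atTop (nhds 0)) :
    ¬ Set.Countable {ξ : ℝ | Transcendental ℚ ξ ∧
      (∃ H0 : ℕ, ∀ x y z : ℤ, H0 ≤ max x.natAbs (max y.natAbs z.natAbs) →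
        ψ (max x.natAbs (max y.natAbs z.natAbs)) ≤ |(x : ℝ) + ξ * y + ξ ^ 2 * z|) ∧
      ∀ ε : ℝ, 0 < ε → ∀ K : ℕ, ∃ x y z : ℤ, K ≤ max x.natAbs (max y.natAbs z.natAbs) ∧
        ¬ IsSquare (y ^ 2 - 4 * z * x) ∧
        |(x : ℝ) + ξ * y + ξ ^ 2 * z| ≤ (1 + ε) * ψ (max x.natAbs (max y.natAbs z.natAbs))} := by
  have hev : ∀ k : ℤ, ∃ N : ℕ, ∀ H : ℕ, N ≤ H → (H : ℝ) ^ 2 * ψ H ≤ P k := fun k =>
    Filter.eventually_atTop.1 (hlim.eventually (ge_mem_nhds (P_pos k)))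
  obtain ⟨N, hN⟩ := hev (-432000)
  refine trans_unc (mainThm ψ (N + 1) hmono hpos (by omega) fun H hH => hN H (by omega)) ?_
  rintro ξ ⟨h1, h2⟩ ht
  refine ⟨ht, ⟨N + 1, fun x y z h => ?_⟩, fun ε hε K => ?_⟩
  · rw [← Lv_eq]
    exact h1 z y x h
  · obtain ⟨m, hm⟩ := exists_pow_lt_of_lt_one hε (show (1 / 2 : ℝ) < 1 by norm_num)
    obtain ⟨a, b, c, h3, h4, h5⟩ := h2 (m + 8) (by omega) (hev _) (K + 1)
    have h6 : P (-((m + 8 : ℕ) : ℤ)) ≤ ε := by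
      refine (P_le (show _ ≤ -(m : ℤ) by push_cast; omega)).trans ?_
      rw [P_neg, ← one_div_pow]
      exact hm.le
    rw [Lv_eq] at h5
    exact ⟨c, b, a, le_trans (Nat.le_succ K) h3, h4, h5.trans
      (mul_le_mul_of_nonneg_right (by linarith) (hpos _ (by omega)).le)⟩

end ExOrd.ExactOrderVariant
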