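import Pool.Agent.Lib.MP_a94b90_nt.EX.Stmt

/-! EX row 11: the rational part of the reset step. -/

namespace ExOrd
open Set

namespace ResetR

/-- a failure of `RR` produces a rational in a dyadic class. -/
theorem cls {r n1 u : ℕ} {x : ℝ} (hr : 100 ≤ r) (hu : u ≤ 4) (h : ¬ RR r (n1 + u) x) :
    ∃ h : ℕ, h + r ≤ n1 + 4 ∧ EvQ (2 * h + 2) (min (-3 * (h : ℤ) - 302) (-(n1 : ℤ) - h)) x := by
  unfold RR at h
  push Not at h
  obtain ⟨ρ, h1, h2, h3⟩ := h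
  have hd1 : (1 : ℝ) ≤ ρ.den := by exact_mod_cast ρ.den_pos
  have hd0 : (0 : ℝ) < ρ.den := lt_of_lt_of_le one_pos hd1
  obtain ⟨k, hk1, hk2⟩ := exists_shell hd0
  have hk0 : 0 < k + 1 := lt_of_P_lt (by rw [P_zero]; exact hd1.trans_lt hk2)
  have hk3 : k ≤ ((n1 + u : ℕ) : ℤ) - r := le_of_P_le (hk1.trans h1)
  obtain ⟨h, rfl⟩ : ∃ h : ℕ, k = h := ⟨k.toNat, by omega⟩
  refine ⟨h, by omega, ρ, ?_, ?_⟩
  · have : (ρ.den : ℝ) ^ 2 ≤ P (h + 1) ^ 2 := pow_le_pow_left₀ hd0.le hk2.le 2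
    rw [P_sq] at this
    exact le_P this (by omega)
  · have ha : |x - ρ| ≤ P (-3 * (h : ℤ) - 302) := by
      refine div_le_P (d := (ρ.den : ℝ) ^ 3) (b := 3 * h) (a := -3 * r - 2) ?_ ?_ (by omega)
      · rw [abs_of_nonneg (by positivity), ← P_cube]
        exact pow_le_pow_left₀ (P_pos _).le hk1 3
      · rwa [abs_mul, abs_of_nonneg (show (0 : ℝ) ≤ (ρ.den : ℝ) ^ 3 by positivity)]
    have hb : |x - ρ| ≤ P (-(n1 : ℤ) - h) := by
      refine div_le_P (d := (ρ.den : ℝ)) (b := h) (a := -r - 1 - ((n1 + u : ℕ) : ℤ)) ?_ ?_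
        (by omega)
      · rwa [abs_of_nonneg hd0.le]
      · rwa [abs_mul, abs_of_nonneg hd0.le]
    rcases min_choice (-3 * (h : ℤ) - 302) (-(n1 : ℤ) - h) with e | e <;> rw [e] <;> assumption

end ResetR

theorem resetR (hq : RatStmt) (hf : LFewStmt) (hs : LSumStmt) : ResetRStmt := by
  intro r n0 n1 hr hn
  have key := hs (r + 1) n0 n1 n1 (fun h => h + r ≤ n1 + 4)
    (fun h => EvQ (2 * h + 2) (min (-3 * (h : ℤ) - 302) (-(n1 : ℤ) - h))) 7 (by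
      intro h _ hC
      have h1 := hq (r + 1) (n0 + (2 * h + 6) / 3) n1
        (min (-3 * (h : ℤ) - 302) (-(n1 : ℤ) - h) + 1 + 3 * n1).toNat (2 * h + 2)
        (min (-3 * (h : ℤ) - 302) (-(n1 : ℤ) - h)) (by omega) (by omega) (by omega)
      exact hf (r + 1) n0 _ n1 _ _ _ (by omega) (by omega) h1 (by omega))
  refine light_mono key ?_ (le_of_eq (by rw [← P_neg_two]; norm_num))
  rintro x ⟨u, hu, h⟩
  obtain ⟨h, h1, h2⟩ := ResetR.cls hr hu h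
  exact ⟨h, by omega, h1, h2⟩

end ExOrd
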