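import Pool.Agent.Lib.MP_a94b90_nt.EX.Defs

/-! EX: statements of the blocks. -/

namespace ExOrd
open Set

def ZStmt : Prop :=
  ∀ (r m l : ℕ) (x : ℝ) (a b c : ℤ), Good r m x → l ≤ m + 2 → Box r m l x a b c →
    a = 0 ∧ b = 0 ∧ c = 0

def CntStmt : Prop :=
  ∀ (α β γ : ℤ) (G : ℕ) (x : ℝ), (∀ a b c : ℤ, Bx α β γ x a b c → a = 0 ∧ b = 0 ∧ c = 0) →
    α + β + γ + 3 * G + 3 ≤ 0 → ∀ T : Finset (ℤ × ℤ × ℤ),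
      (∀ Q ∈ T, Bx (α + G) (β + G) (γ + G) x Q.1 Q.2.1 Q.2.2) → (T.card : ℝ) ≤ P (2 * G + 5)

def KillStmt : Prop :=
  ∀ (r m j l F ρ : ℕ) (α β γ B : ℤ), l ≤ m → F + 3 ≤ 2 * r + 2 + l →
    α ≤ F - (2 * r + 2) - 2 * m - 2 * l → β ≤ F + m - (2 * r + 2) - 2 * l →
    γ ≤ F + m - (2 * r + 2) + l → 2 + γ - 3 * m ≤ B → 2 + α + 3 * j ≤ ρ + B →
    Few r m j (EvK α β γ B) (P (ρ + 2 * F + 11))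

def RatStmt : Prop :=
  ∀ (r m j ρ : ℕ) (G κ : ℤ), G + 2 ≤ 3 * m → κ + G + 2 ≤ 0 → κ + 1 + 3 * j ≤ ρ →
    Few r m j (EvQ G κ) (P (ρ + 2))

def DualStmt : Prop :=
  ∀ (r g s n0 n1 n : ℕ), Par r g s n0 n1 n → Few r (n1 - 4) n1 (EvA s n) (P 3)

def LFewStmt : Prop :=
  ∀ (r n m j : ℕ) (E : ℝ → Prop) (ν w : ℤ), n ≤ m → m < j → Few r m j E (P ν) →
    5 * (ν + 3 + w) ≤ 14 * ((j : ℤ) - m) → Light r n j E (P (-w))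

def LOrStmt : Prop :=
  ∀ (r n j : ℕ) (E E1 E2 : ℝ → Prop) (w w1 w2 : ℝ), Light r n j E1 w1 → Light r n j E2 w2 →
    (∀ x, E x → E1 x ∨ E2 x) → w1 + w2 ≤ w → Light r n j E w

/-- a family indexed by `l < N`, restricted by `C`, with weights `2^(-c - l/16)`. -/
def LSumStmt : Prop :=
  ∀ (r n j N : ℕ) (C : ℕ → Prop) (E : ℕ → ℝ → Prop) (c : ℤ),
    (∀ l, l < N → C l → Light r n j (E l) (P (-(c + (l / 16 : ℕ))))) →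
    Light r n j (fun x => ∃ l, l < N ∧ C l ∧ E l x) (P (5 - c))

def MainStmt : Prop :=
  ∀ (r n j : ℕ), 100 ≤ r → n ≤ j →
    Light r n (j + 1) (fun x => StartAt r n x ∧ Good r j x ∧ ¬ Good r (j + 1) x) (1 / 2)

def PhaseStmt : Prop :=
  ∀ (r n i n1 : ℕ) (E : ℝ → Prop), 100 ≤ r → n < n1 → (∀ x ∈ Node n i, StartAt r n x) →
    Light r n n1 E (1 / 2) → ∃ i1, Node n1 i1 ⊆ Node n i ∧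
      ∀ x ∈ Node n1 i1, (∀ j, n ≤ j → j ≤ n1 → Good r j x) ∧ ¬ E x

def ExtraStmt : Prop :=
  ∀ (r g s n0 n1 n : ℕ) (a0 : ℝ), Par r g s n0 n1 n →
    Light r n0 n1 (fun x => ¬ Clean g s n1 n x ∨ x = a0) (1 / 2)

def ResetPStmt : Prop :=
  ∀ (r n0 n1 : ℕ), 100 ≤ r → 10 * n0 + 1000 ≤ n1 →
    Light (r + 1) n0 n1 (fun x => ∃ (u l : ℕ) (a b c : ℤ), u ≤ kk l ∧
      Box r (n1 + u) l x a b c ∧ b ^ 2 ≠ 4 * a * c) (1 / 4)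

def ResetRStmt : Prop :=
  ∀ (r n0 n1 : ℕ), 100 ≤ r → 10 * n0 + 1000 ≤ n1 →
    Light (r + 1) n0 n1 (fun x => ∃ u : ℕ, u ≤ 4 ∧ ¬ RR r (n1 + u) x) (1 / 4)

def PairStmt : Prop :=
  ∀ (r g s n0 n1 n : ℕ) (x : ℝ) (a b c a' b' c' : ℤ), Par r g s n0 n1 n → Good r n1 x →
    ¬ EvA s n x → Vec r n x a b c → |Lv a b c x| ≤ P (-2 * n - 19 * s) →
    Bx (-2 * n - 19 * s) (n + s) (n + s) x a' b' c' →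
    ∃ t : ℤ, a' = t * a ∧ b' = t * b ∧ c' = t * c

/-- Dirichlet vector at the point `x`. -/
def DirStmt : Prop :=
  ∀ (A B : ℕ) (x : ℝ), ∃ a b c : ℤ, (∀ t : ℤ, t ∣ a → t ∣ b → t ∣ c → IsUnit t) ∧
    |(a : ℝ)| ≤ P A ∧ |(b : ℝ)| ≤ P B ∧ |Lv a b c x| ≤ P (-A - B)

def VecStmt : Prop :=
  ∀ (ψ : ℕ → ℝ) (r g s n0 n1 n i : ℕ), Par r g s n0 n1 n → (∀ x ∈ Node n1 i, Good r n1 x) →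
    Node n1 i ⊆ Icc 0 1 → (∀ H, 1 ≤ H → 0 < ψ H) →
    (∀ H : ℕ, P (n - 6 * r - 11) < 3 * (H : ℝ) → (H : ℝ) ^ 2 * ψ H ≤ P (-20 * s)) →
    ∃ (a b c : ℤ) (n2 i2 : ℕ), Node n2 i2 ⊆ Node n1 i ∧
      P (n - 6 * r - 11) < 3 * (Ht a b c : ℝ) ∧ (Ht a b c : ℝ) ≤ P (n + 2) ∧
      ψ (Ht a b c) ≤ P (-2 * n - 19 * s - 1) ∧ P (n + g + 3 - 3 * n2) ≤ ψ (Ht a b c) ∧
      ψ (Ht a b c) < P (n + g + 6 - 3 * n2) ∧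
      ∀ x ∈ Node n2 i2, Vec r n x a b c ∧ ψ (Ht a b c) ≤ |Lv a b c x| ∧
        |Lv a b c x| ≤ (1 + P (-g)) * ψ (Ht a b c)

def StartPStmt : Prop :=
  ∀ (r g s n0 n1 n r2 n2 : ℕ) (x μ : ℝ) (a b c : ℤ), Win r g s n0 n1 n r2 n2 x μ a b c →
    ∀ (u l : ℕ) (a' b' c' : ℤ), u ≤ kk l → Box r2 (n2 + u) l x a' b' c' → b' ^ 2 = 4 * a' * c'

def StartRStmt : Prop :=
  ∀ (r g s n0 n1 n r2 n2 : ℕ) (x μ : ℝ) (a b c : ℤ), Win r g s n0 n1 n r2 n2 x μ a b c →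
    ∀ u : ℕ, u ≤ 4 → RR r2 (n2 + u) x

def IrrStmt : Prop :=
  ∀ (r g s n0 n1 n r2 n2 : ℕ) (x μ : ℝ) (a b c : ℤ), Win r g s n0 n1 n r2 n2 x μ a b c →
    ¬ IsSquare (b ^ 2 - 4 * a * c)

def ExtStmt : Prop :=
  ∀ (ψ : ℕ → ℝ) (H0 r n i n1 : ℕ) (x : ℝ) (a b c : ℤ), 1 ≤ H0 → State ψ H0 r n i →
    x ∈ Node n i → (∀ j, n ≤ j → j ≤ n1 → Good r j x) → H0 ≤ Ht a b c →
    3 * (Ht a b c : ℝ) ≤ P (n1 - (2 * r + 2)) → ψ (Ht a b c) ≤ |Lv a b c x|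

def DownStmt : Prop :=
  ∀ (ψ : ℕ → ℝ) (H0 r n0 i : ℕ), 1 ≤ H0 → 100 ≤ r → State ψ H0 (r + 1) n0 i →
    ∃ n1 i1, State ψ H0 r n1 i1 ∧ Node n1 i1 ⊆ Node n0 i

def StepStmt : Prop :=
  ∀ (ψ : ℕ → ℝ) (H0 r n0 i g K : ℕ) (a0 : ℝ), (∀ H H', 1 ≤ H → H ≤ H' → ψ H' ≤ ψ H) →
    (∀ H, 1 ≤ H → 0 < ψ H) → 1 ≤ H0 → State ψ H0 r n0 i → 8 ≤ g →
    (∃ N : ℕ, ∀ H : ℕ, N ≤ H → (H : ℝ) ^ 2 * ψ H ≤ P (-4000 * (r + g))) →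
    ∃ r2 n2 i2, State ψ H0 r2 n2 i2 ∧ Node n2 i2 ⊆ Node n0 i ∧ a0 ∉ Node n2 i2 ∧
      K + (2 * r2 + 2) ≤ n2 ∧ ∃ a b c : ℤ, K ≤ Ht a b c ∧ ¬ IsSquare (b ^ 2 - 4 * a * c) ∧
        ∀ x ∈ Node n2 i2, |Lv a b c x| ≤ (1 + P (-g)) * ψ (Ht a b c)

/-- the unified theorem. -/
def MainThm : Prop :=
  ∀ (ψ : ℕ → ℝ) (H0 : ℕ), (∀ H H', 1 ≤ H → H ≤ H' → ψ H' ≤ ψ H) → (∀ H, 1 ≤ H → 0 < ψ H) →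
    1 ≤ H0 → (∀ H : ℕ, H0 ≤ H → (H : ℝ) ^ 2 * ψ H ≤ P (-432000)) →
    ¬ Set.Countable {ξ : ℝ | (∀ a b c : ℤ, H0 ≤ Ht a b c → ψ (Ht a b c) ≤ |Lv a b c ξ|) ∧
      ∀ g : ℕ, 8 ≤ g → (∃ N : ℕ, ∀ H : ℕ, N ≤ H → (H : ℝ) ^ 2 * ψ H ≤ P (-4000 * (100 + g))) →
        ∀ K : ℕ, ∃ a b c : ℤ, K ≤ Ht a b c ∧ ¬ IsSquare (b ^ 2 - 4 * a * c) ∧
          |Lv a b c ξ| ≤ (1 + P (-g)) * ψ (Ht a b c)}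

end ExOrd
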